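import Pool.Agent.H620.Thr.Final
import Pool.Agent.H620.Inf2.Time
import Pool.Graph.R_seed8.H499R2.CL.O4
import Pool.Graph.R_seed8.H499R2.LT.R6

/-! Total stopping times at most `κ log n + c`, for the critical `κ`. -/

set_option autoImplicit false

namespace Pool.Agent.H620.Thr

open Finset Filter Topology
open Pool.Agent.H499R2.ND (Dn Tn CC cnt Phi Phi_continuous Phi_neg dn_squeeze large_log phi_cdf)
open Pool.Agent.H499R2.LT (law_one law_oneC odn Dn_iff)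
open Pool.Agent.H620.Inf2 (Sg Fam Large)

theorem dens_of {F : ℝ → ℕ → Prop} {δ : ℝ} (hF : ∀ x, Dn (F x) (δ * Phi x)) {Q : ℕ → Prop} {c σ : ℝ} (hσ : 0 < σ)
    (h : ∀ (x : ℝ) (n : ℕ), 1 ≤ n → (x * (σ * Real.sqrt (Real.log n)) ≤ c → F x n → Q n) ∧
      (c ≤ x * (σ * Real.sqrt (Real.log n)) → Q n → F x n)) : Dn Q (δ / 2) := by
  have h0 : Phi 0 = 1 / 2 := by
    have := Phi_neg 0
    rw [neg_zero] at this
    linarith
  have h1 : δ * Phi 0 = δ / 2 := by rw [h0]; ring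
  rw [← h1]
  refine dn_squeeze (P := F) (F := fun x => δ * Phi x) (Phi_continuous.const_mul δ) hF (x := 0) ?_
  intro θ hθ η hη
  obtain ⟨E, hE, hE'⟩ := large_log (P := fun L => |c| ≤ θ * (σ * Real.sqrt L))
    ⟨(|c| / (θ * σ)) ^ 2, fun L hL => by
      have h4 : |c| / (θ * σ) ≤ Real.sqrt L := Real.le_sqrt_of_sq_le hL
      rw [div_le_iff₀ (by positivity)] at h4
      linarith⟩ hη
  refine ⟨E, hE, fun n hn hnE => ?_⟩
  have h2 := hE' n hn hnE
  have h3 := neg_abs_le c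
  have h4 := le_abs_self c
  constructor
  · refine (h (0 - θ) n hn).1 ?_
    linarith
  · refine (h (0 + θ) n hn).2 ?_
    linarith

/-- reaching `1` in at most `a` steps -/
def RT (a : ℝ) (x : ℤ) : Prop := ∃ j : ℕ, (j : ℝ) ≤ a ∧ Tn^[j] x.toNat = 1

/-- reaching `1` in at most `a` steps of the Collatz map -/
def RC (a : ℝ) (x : ℤ) : Prop := ∃ j : ℕ, (j : ℝ) ≤ a ∧ CC^[j] x.toNat = 1

/-- reaching `1` with at most `a` odd terms before -/
def RO (a : ℝ) (x : ℤ) : Prop := ∃ j : ℕ, (odn j x.toNat : ℝ) ≤ a ∧ Tn^[j] x.toNat = 1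

theorem nat_le_iff {a a' : ℝ} (h : ⌊a⌋ = ⌊a'⌋) (j : ℕ) : (j : ℝ) ≤ a ↔ (j : ℝ) ≤ a' := by
  have e : ∀ b : ℝ, (j : ℝ) ≤ b ↔ (j : ℤ) ≤ ⌊b⌋ := by
    intro b
    rw [Int.le_floor]
    push_cast
    rfl
  rw [e a, e a', h]

theorem RT_floor (a a' : ℝ) (x : ℤ) (h : ⌊a⌋ = ⌊a'⌋) : RT a x ↔ RT a' x := by
  unfold RT
  exact exists_congr fun j => by rw [nat_le_iff h]

theorem RC_floor (a a' : ℝ) (x : ℤ) (h : ⌊a⌋ = ⌊a'⌋) : RC a x ↔ RC a' x := by
  unfold RC
  exact exists_congr fun j => by rw [nat_le_iff h]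

theorem RO_floor (a a' : ℝ) (x : ℤ) (h : ⌊a⌋ = ⌊a'⌋) : RO a x ↔ RO a' x := by
  unfold RO
  exact exists_congr fun j => by rw [nat_le_iff h]

theorem T_nat (n : ℕ) : (Pool.Agent.TH930.EBQ.T 1 (n : ℤ)).toNat = Tn n := by
  unfold Pool.Agent.TH930.EBQ.T Tn
  split_ifs <;> omega

theorem RT_fam : Fam 1 (-1 : ℝ) 0 2 RT := by
  intro t x hx
  obtain ⟨n, rfl⟩ : ∃ n : ℕ, x = n := ⟨x.toNat, by omega⟩
  have hn : 2 ≤ n := by exact_mod_cast hx
  unfold RT
  rw [T_nat, Int.toNat_natCast]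
  constructor
  · rintro ⟨j, h1, h2⟩
    rcases j with _ | j
    · have : n = 1 := h2
      omega
    · refine ⟨j, ?_, by rwa [Function.iterate_succ_apply] at h2⟩
      push_cast at h1
      split_ifs <;> linarith
  · rintro ⟨j, h1, h2⟩
    refine ⟨j + 1, ?_, by rwa [Function.iterate_succ_apply]⟩
    push_cast
    split_ifs at h1 <;> linarith

theorem RO_fam : Fam 1 (0 : ℝ) (-1) 2 RO := by
  intro t x hx
  obtain ⟨n, rfl⟩ : ∃ n : ℕ, x = n := ⟨x.toNat, by omega⟩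
  have hn : 2 ≤ n := by exact_mod_cast hx
  unfold RO
  rw [T_nat, Int.toNat_natCast]
  have hs : ∀ j, (odn (j + 1) n : ℝ) = (if (n : ℤ) % 2 = 0 then 0 else 1) + odn j (Tn n) := by
    intro j
    rw [Pool.Agent.H620.Inf2.odn_succ]
    rcases Nat.mod_two_eq_zero_or_one n with h | h
    · rw [if_pos (by omega), h]; push_cast; rfl
    · rw [if_neg (by omega), h]; push_cast; rfl
  constructor
  · rintro ⟨j, h1, h2⟩
    rcases j with _ | j
    · have : n = 1 := h2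
      omega
    · refine ⟨j, ?_, by rwa [Function.iterate_succ_apply] at h2⟩
      rw [hs] at h1
      split_ifs at h1 ⊢ <;> linarith
  · rintro ⟨j, h1, h2⟩
    refine ⟨j + 1, ?_, by rwa [Function.iterate_succ_apply]⟩
    rw [hs]
    split_ifs at h1 ⊢ <;> linarith

theorem RC_step (a : ℝ) {n : ℕ} (hn : n ≠ 1) : (∃ j : ℕ, (j : ℝ) ≤ a ∧ CC^[j] n = 1) ↔
    ∃ j : ℕ, (j : ℝ) ≤ a - 1 ∧ CC^[j] (CC n) = 1 := by
  constructor
  · rintro ⟨j, h1, h2⟩
    rcases j with _ | j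
    · exact absurd h2 hn
    · refine ⟨j, ?_, by rwa [Function.iterate_succ_apply] at h2⟩
      push_cast at h1
      linarith
  · rintro ⟨j, h1, h2⟩
    refine ⟨j + 1, ?_, by rwa [Function.iterate_succ_apply]⟩
    push_cast
    linarith

theorem RC_fam : Fam 1 (-1 : ℝ) (-1) 2 RC := by
  intro t x hx
  obtain ⟨n, rfl⟩ : ∃ n : ℕ, x = n := ⟨x.toNat, by omega⟩
  have hn : 2 ≤ n := by exact_mod_cast hx
  unfold RC
  rw [T_nat, Int.toNat_natCast, RC_step t (by omega)]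
  rcases Nat.mod_two_eq_zero_or_one n with h | h
  · have hC : CC n = Tn n := by unfold CC Tn; rw [if_pos h, if_pos h]
    rw [hC, if_pos (by omega), add_zero, ← sub_eq_add_neg]
  · have hC : CC n = 3 * n + 1 := by unfold CC; rw [if_neg (by omega)]
    have hC2 : CC (3 * n + 1) = Tn n := by unfold CC Tn; rw [if_pos (by omega), if_neg (by omega)]
    rw [hC, RC_step (t - 1) (by omega), hC2, if_neg (by omega)]
    have e : t + (-1 + -1) = t - 1 - 1 := by ring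
    rw [e]

theorem first_T {n j : ℕ} (h : Tn^[j] n = 1) : ∃ k ≤ j, Tn^[k] n = 1 ∧ ∀ i < k, Tn^[i] n ≠ 1 := by
  classical
  have hex : ∃ k, Tn^[k] n = 1 := ⟨j, h⟩
  exact ⟨Nat.find hex, Nat.find_min' hex h, Nat.find_spec hex, fun i hi => Nat.find_min hex hi⟩

theorem first_C {n j : ℕ} (h : CC^[j] n = 1) : ∃ k ≤ j, CC^[k] n = 1 ∧ ∀ i < k, CC^[i] n ≠ 1 := by
  classical
  have hex : ∃ k, CC^[k] n = 1 := ⟨j, h⟩
  exact ⟨Nat.find hex, Nat.find_min' hex h, Nat.find_spec hex, fun i hi => Nat.find_min hex hi⟩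

theorem log43_pos : 0 < Real.log (4 / 3) := Real.log_pos (by norm_num)

theorem log43_eq : 2 * Real.log 2 - Real.log 3 = Real.log (4 / 3) := by
  rw [Real.log_div (by norm_num) (by norm_num), show (4 : ℝ) = 2 ^ 2 by norm_num, Real.log_pow]
  norm_num

theorem sqrt_split (L : ℝ) : Real.sqrt (2 * L / Real.log (4 / 3) ^ 3) =
    Real.sqrt (2 / Real.log (4 / 3) ^ 3) * Real.sqrt L := by
  have := log43_pos
  rw [← Real.sqrt_mul (by positivity)]
  congr 1
  ring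

theorem dens_T (c : ℝ) : ∃ δ : ℝ, 0 < δ ∧ δ ≤ 1 ∧
    Dn (fun n => RT (2 / Real.log (4 / 3) * Real.log n + c) (n : ℤ)) (δ / 2) := by
  obtain ⟨δ, h0, h1, _, _, h4⟩ := law_one
  refine ⟨δ, h0, h1, ?_⟩
  have h3 : 0 < Real.log 3 := Real.log_pos (by norm_num)
  have hl := log43_pos
  have hs : 0 < Real.sqrt (2 / Real.log (4 / 3) ^ 3) := Real.sqrt_pos.2 (by positivity)
  refine dens_of (F := fun x n => ∃ k : ℕ, (k : ℝ) ≤ 2 / Real.log (4 / 3) * Real.log n
          + x * (Real.log 3 * Real.sqrt (2 * Real.log n / Real.log (4 / 3) ^ 3)) ∧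
        (Tn^[k] n = 1 ∧ ∀ i < k, Tn^[i] n ≠ 1) ∧
        (k : ℤ) ≡ 0 [ZMOD (1 : ℕ)] ∧ (odn k n : ℤ) ≡ 0 [ZMOD (1 : ℕ)]) (δ := δ) ?_
    (c := c) (σ := Real.log 3 * Real.sqrt (2 / Real.log (4 / 3) ^ 3)) (by positivity) ?_
  · intro x
    have h5 := (h4 1 0 0 le_rfl).2 x
    rw [← phi_cdf] at h5
    simpa using h5
  · intro x n _
    have e : x * (Real.log 3 * Real.sqrt (2 * Real.log n / Real.log (4 / 3) ^ 3)) =
        x * (Real.log 3 * Real.sqrt (2 / Real.log (4 / 3) ^ 3) * Real.sqrt (Real.log n)) := by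
      rw [sqrt_split]; ring
    constructor
    · rintro hx ⟨k, g1, g2, _⟩
      rw [e] at g1
      exact ⟨k, by linarith, by rw [Int.toNat_natCast]; exact g2.1⟩
    · rintro hx ⟨j, g1, g2⟩
      rw [Int.toNat_natCast] at g2
      obtain ⟨k, hk, g3⟩ := first_T g2
      have hkj : (k : ℝ) ≤ j := by exact_mod_cast hk
      refine ⟨k, by rw [e]; linarith, g3, ?_, ?_⟩ <;> simp [Int.ModEq, Int.emod_one]

theorem dens_C (c : ℝ) : ∃ δ : ℝ, 0 < δ ∧ δ ≤ 1 ∧
    Dn (fun n => RC (3 / Real.log (4 / 3) * Real.log n + c) (n : ℤ)) (δ / 2) := by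
  obtain ⟨δ, h0, h1, _, _, h4⟩ := law_oneC
  refine ⟨δ, h0, h1, ?_⟩
  have h3 : 0 < Real.log 6 := Real.log_pos (by norm_num)
  have hl := log43_pos
  have hs : 0 < Real.sqrt (2 / Real.log (4 / 3) ^ 3) := Real.sqrt_pos.2 (by positivity)
  refine dens_of (F := fun x n => ∃ k : ℕ, (k : ℝ) ≤ 3 / Real.log (4 / 3) * Real.log n
          + x * (Real.log 6 * Real.sqrt (2 * Real.log n / Real.log (4 / 3) ^ 3)) ∧
        (CC^[k] n = 1 ∧ ∀ i < k, CC^[i] n ≠ 1) ∧
        (k : ℤ) ≡ 0 [ZMOD (1 : ℕ)] ∧ (Pool.Agent.H499R2.LT.ocn k n : ℤ) ≡ 0 [ZMOD (1 : ℕ)]) (δ := δ) ?_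
    (c := c) (σ := Real.log 6 * Real.sqrt (2 / Real.log (4 / 3) ^ 3)) (by positivity) ?_
  · intro x
    have h5 := h4 1 0 0 le_rfl x
    rw [← phi_cdf] at h5
    simpa using h5
  · intro x n _
    have e : x * (Real.log 6 * Real.sqrt (2 * Real.log n / Real.log (4 / 3) ^ 3)) =
        x * (Real.log 6 * Real.sqrt (2 / Real.log (4 / 3) ^ 3) * Real.sqrt (Real.log n)) := by
      rw [sqrt_split]; ring
    constructor
    · rintro hx ⟨k, g1, g2, _⟩
      rw [e] at g1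
      exact ⟨k, by linarith, by rw [Int.toNat_natCast]; exact g2.1⟩
    · rintro hx ⟨j, g1, g2⟩
      rw [Int.toNat_natCast] at g2
      obtain ⟨k, hk, g3⟩ := first_C g2
      have hkj : (k : ℝ) ≤ j := by exact_mod_cast hk
      refine ⟨k, by rw [e]; linarith, g3, ?_, ?_⟩ <;> simp [Int.ModEq, Int.emod_one]

/-- **Total stopping time at most `2 / log (4/3) log n + c`** (shortcut map): large total influence -/
theorem large_T (c : ℝ) : Large (fun n : ℕ => RT (2 / Real.log (4 / 3) * Real.log n + c) (n : ℤ)) := by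
  obtain ⟨δ, h0, h1, h2⟩ := dens_T c
  have hl := log43_pos
  refine threshold_large (Or.inl rfl) RT_fam (by norm_num) RT_floor (by positivity) ?_ c
    (l := δ / 2) (by positivity) (by linarith) h2
  rw [log43_eq]
  field_simp
  norm_num

/-- **Total stopping time at most `3 / log (4/3) log n + c`** (Collatz map): large total influence -/
theorem large_C (c : ℝ) : Large (fun n : ℕ => RC (3 / Real.log (4 / 3) * Real.log n + c) (n : ℤ)) := by
  obtain ⟨δ, h0, h1, h2⟩ := dens_C c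
  have hl := log43_pos
  refine threshold_large (Or.inl rfl) RC_fam (by norm_num) RC_floor (by positivity) ?_ c
    (l := δ / 2) (by positivity) (by linarith) h2
  rw [log43_eq]
  field_simp
  norm_num

end Pool.Agent.H620.Thr
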