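import Pool.Agent.H620.Thr.Coal
import Pool.Agent.H620.Inf.Comb

/-! The sets of the numbers with a hitting time below the critical threshold: local models. -/

set_option autoImplicit false

namespace Pool.Agent.H620.Thr

open Finset
open Pool.Agent.H620.Inf (ind ind_nonneg ind_le_one ind_true ind_false ind_mono ind_or ne'_eq_ind ne' sum_split)
open Pool.Agent.H620.Inf2 (Sg aw cv pt Fam)

/-- the threshold -/
noncomputable def th (κ c x : ℝ) : ℝ := κ * Real.log x + c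

/-- the integral part of the threshold at the multiples of `w` -/
noncomputable def Gf (κ c w : ℝ) (U : ℕ) : ℤ := ⌊th κ c (w * U)⌋

variable {κ c w : ℝ}

theorem th_mono (hκ : 0 ≤ κ) {x y : ℝ} (hx : 0 < x) (hxy : x ≤ y) : th κ c x ≤ th κ c y := by
  unfold th
  have := Real.log_le_log hx hxy
  have := mul_le_mul_of_nonneg_left this hκ
  linarith

theorem Gf_le (hκ : 0 ≤ κ) (hw : 0 < w) {U : ℕ} (hU : 1 ≤ U) : Gf κ c w U ≤ Gf κ c w (U + 1) := by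
  unfold Gf
  apply Int.floor_le_floor
  apply th_mono hκ
  · have : (0 : ℝ) < U := by exact_mod_cast hU
    positivity
  · push_cast
    apply mul_le_mul_of_nonneg_left _ hw.le
    linarith

theorem differ {R : ℝ → ℤ → Prop} (hfl : ∀ (a a' : ℝ) (x : ℤ), ⌊a⌋ = ⌊a'⌋ → (R a x ↔ R a' x)) (hκ : 0 ≤ κ)
    (hw : 0 < w) {U : ℕ} (hU : 1 ≤ U) {x : ℝ} (h1 : w * U ≤ x) (h2 : x ≤ w * (U + 1)) (z : ℤ) :
    ind (¬ (R (th κ c (w * U)) z ↔ R (th κ c x) z)) ≤ (Gf κ c w (U + 1) : ℝ) - Gf κ c w U := by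
  have hUr : (0 : ℝ) < U := by exact_mod_cast hU
  have hwU : 0 < w * U := by positivity
  have g1 : Gf κ c w U ≤ ⌊th κ c x⌋ := Int.floor_le_floor (th_mono hκ hwU h1)
  have g2 : ⌊th κ c x⌋ ≤ Gf κ c w (U + 1) := by
    unfold Gf
    push_cast
    exact Int.floor_le_floor (th_mono hκ (hwU.trans_le h1) h2)
  by_cases h : Gf κ c w U = ⌊th κ c x⌋
  · rw [ind_false (not_not.2 (hfl _ _ z h))]
    have : (Gf κ c w U : ℝ) ≤ Gf κ c w (U + 1) := by exact_mod_cast g1.trans g2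
    linarith
  · have h3 : Gf κ c w U + 1 ≤ Gf κ c w (U + 1) := by omega
    have h4 : (Gf κ c w U : ℝ) + 1 ≤ Gf κ c w (U + 1) := by exact_mod_cast h3
    have := ind_le_one (¬ (R (th κ c (w * U)) z ↔ R (th κ c x) z))
    linarith

/-- the jump at `U` -/
noncomputable def jp (κ c w : ℝ) (U : ℕ) : ℝ := if 1 ≤ U then (Gf κ c w (U + 1) : ℝ) - Gf κ c w U else 0

theorem jp_nonneg (hκ : 0 ≤ κ) (hw : 0 < w) (U : ℕ) : 0 ≤ jp κ c w U := by
  unfold jp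
  split_ifs with h
  · have : (Gf κ c w U : ℝ) ≤ Gf κ c w (U + 1) := by exact_mod_cast Gf_le hκ hw h
    linarith
  · exact le_rfl

theorem sum_jp (hw : 0 < w) (u : ℕ) : ∑ U ∈ range (2 ^ u), jp κ c w U ≤ κ * (u * Real.log 2) + 1 := by
  obtain ⟨n, hn⟩ : ∃ n, 2 ^ u = n + 1 := ⟨2 ^ u - 1, by have := Nat.one_le_two_pow (n := u); omega⟩
  rw [hn, sum_range_succ']
  have e0 : jp κ c w 0 = 0 := by unfold jp; rw [if_neg (by omega)]
  rw [e0, add_zero]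
  have e1 : ∀ i ∈ range n, jp κ c w (i + 1) = (Gf κ c w (i + 1 + 1) : ℝ) - Gf κ c w (i + 1) := by
    intro i _
    unfold jp
    rw [if_pos (by omega)]
  rw [sum_congr rfl e1, sum_range_sub (fun i => (Gf κ c w (i + 1) : ℝ)), ← hn]
  have h1 : (Gf κ c w (2 ^ u) : ℝ) ≤ th κ c (w * (2 ^ u : ℕ)) := Int.floor_le _
  have h2 : th κ c (w * (0 + 1 : ℕ)) < (Gf κ c w (0 + 1) : ℝ) + 1 := Int.lt_floor_add_one _
  have h3 : th κ c (w * (2 ^ u : ℕ)) = th κ c (w * (0 + 1 : ℕ)) + κ * (u * Real.log 2) := by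
    unfold th
    push_cast
    rw [Real.log_mul hw.ne' (by positivity), Real.log_pow]
    simp only [zero_add, mul_one]
    ring
  linarith

variable {α β : ℝ} {n₀ : ℕ} {R : ℝ → ℤ → Prop}

/-- the number of exceptions -/
theorem TP_diff (hfl : ∀ (a a' : ℝ) (x : ℤ), ⌊a⌋ = ⌊a'⌋ → (R a x ↔ R a' x)) (hκ : 0 ≤ κ) (hn₀ : 1 ≤ n₀) (J b u : ℕ) :
    ∑ n ∈ range (2 ^ (J + b + u)), ne' (TP R (fun U => th κ c ((2 : ℝ) ^ (J + b) * U)) n₀ J b n)
      (R (th κ c ((n : ℤ) : ℝ)) (n : ℤ)) ≤ 2 ^ (J + b) * (n₀ + (κ * (u * Real.log 2) + 1)) := by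
  have h2w : (0 : ℝ) < (2 : ℝ) ^ (J + b) := by positivity
  rw [show (2 : ℕ) ^ (J + b + u) = 2 ^ (J + b) * 2 ^ u by rw [← pow_add], sum_split]
  have hpt : ∀ U ∈ range (2 ^ u), ∀ L ∈ range (2 ^ (J + b)),
      ne' (TP R (fun U => th κ c ((2 : ℝ) ^ (J + b) * U)) n₀ J b (2 ^ (J + b) * U + L))
        (R (th κ c (((2 ^ (J + b) * U + L : ℕ) : ℤ) : ℝ)) ((2 ^ (J + b) * U + L : ℕ) : ℤ)) ≤
      ind (U < n₀) + jp κ c ((2 : ℝ) ^ (J + b)) U := by
    intro U _ L hL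
    rw [mem_range] at hL
    rw [ne'_eq_ind]
    have hjp := jp_nonneg (c := c) hκ h2w U
    by_cases hU : n₀ ≤ U
    · have e1 : (2 ^ (J + b) * U + L) / 2 ^ (J + b) = U := by
        rw [Nat.mul_add_div (by positivity), Nat.div_eq_of_lt hL, add_zero]
      have e2 : 2 ^ (J + b) * n₀ ≤ 2 ^ (J + b) * U + L := by
        have := Nat.mul_le_mul_left (2 ^ (J + b)) hU
        omega
      have e3 : TP R (fun U => th κ c ((2 : ℝ) ^ (J + b) * U)) n₀ J b (2 ^ (J + b) * U + L) ↔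
          R (th κ c ((2 : ℝ) ^ (J + b) * U)) ((2 ^ (J + b) * U + L : ℕ) : ℤ) := by
        unfold TP
        rw [e1]
        exact ⟨fun h => h.2, fun h => ⟨e2, h⟩⟩
      rw [propext e3, ind_false (show ¬ (U < n₀) by omega), zero_add]
      have hU1 : 1 ≤ U := by omega
      unfold jp
      rw [if_pos hU1]
      apply differ hfl hκ h2w hU1
      · push_cast
        linarith [(Nat.cast_nonneg L : (0 : ℝ) ≤ L)]
      · push_cast
        have : (L : ℝ) ≤ 2 ^ (J + b) := by exact_mod_cast hL.le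
        linarith
    · rw [ind_true (show U < n₀ by omega)]
      exact (ind_le_one _).trans (by linarith)
  refine (sum_le_sum fun U hU => sum_le_sum fun L hL => hpt U hU L hL).trans ?_
  simp only [sum_const, card_range, nsmul_eq_mul]
  rw [← mul_sum, sum_add_distrib]
  push_cast
  apply mul_le_mul_of_nonneg_left _ (by positivity)
  exact add_le_add (Pool.Agent.H620.Inf2.sum_lt_ind _ _) (sum_jp h2w u)

theorem phase (hfl : ∀ (a a' : ℝ) (x : ℤ), ⌊a⌋ = ⌊a'⌋ → (R a x ↔ R a' x)) (hκ : 0 ≤ κ)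
    (hκ2 : κ * (2 * Real.log 2 - Real.log 3) = -(2 * α + β)) (hn₀ : 1 ≤ n₀) {J : ℕ} (hJ : 2 ∣ J) (b u : ℕ)
    {μ r : ℕ} (hμ : μ ≤ J / 2) (hr : r < 3 ^ μ) :
    ∑ U ∈ range (2 ^ (b + u)), ∑ q ∈ range (3 ^ (J / 2 - μ)),
      ind (¬ (TV α β R (fun U => th κ c ((2 : ℝ) ^ (J + b) * U)) n₀ J b U (J / 2) (3 ^ μ * (q : ℤ) + r) ↔
        R (th κ c ((3 ^ μ * ((3 ^ (J / 2 - μ) * U + q : ℕ) : ℤ) + r : ℤ) : ℝ))
          (3 ^ μ * ((3 ^ (J / 2 - μ) * U + q : ℕ) : ℤ) + r))) ≤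
      3 ^ (J / 2 - μ) * (2 ^ b * (n₀ + (κ * (u * Real.log 2) + 1))) := by
  set h := J / 2 with hh
  have hJh : J = 2 * h := by omega
  have hw : (0 : ℝ) < 3 ^ h * 2 ^ b := by positivity
  have e3h : (3 : ℤ) ^ h = 3 ^ μ * 3 ^ (h - μ) := by rw [← pow_add]; congr 1; omega
  have hpt : ∀ U ∈ range (2 ^ (b + u)), ∀ q ∈ range (3 ^ (h - μ)),
      ind (¬ (TV α β R (fun U => th κ c ((2 : ℝ) ^ (J + b) * U)) n₀ J b U h (3 ^ μ * (q : ℤ) + r) ↔
        R (th κ c ((3 ^ μ * ((3 ^ (h - μ) * U + q : ℕ) : ℤ) + r : ℤ) : ℝ))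
          (3 ^ μ * ((3 ^ (h - μ) * U + q : ℕ) : ℤ) + r))) ≤
      ind (U / 2 ^ b < n₀) + jp κ c (3 ^ h * 2 ^ b) (U / 2 ^ b) := by
    intro U _ q hq
    rw [mem_range] at hq
    have hjp := jp_nonneg (c := c) hκ hw (U / 2 ^ b)
    by_cases hU : n₀ ≤ U / 2 ^ b
    · have hU1 : 1 ≤ U / 2 ^ b := by omega
      have hUr : (0 : ℝ) < ((U / 2 ^ b : ℕ) : ℝ) := by exact_mod_cast hU1
      have hU2 : 2 ^ b * n₀ ≤ U := by
        rw [mul_comm]
        exact (Nat.le_div_iff_mul_le (by positivity)).1 hU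
      have e1 : (3 : ℤ) ^ h * U + (3 ^ μ * (q : ℤ) + r) = 3 ^ μ * ((3 ^ (h - μ) * U + q : ℕ) : ℤ) + r := by
        rw [e3h]; push_cast; ring
      have e2 : th κ c ((2 : ℝ) ^ (J + b) * (U / 2 ^ b : ℕ)) + (J • α + h • β) =
          th κ c (3 ^ h * 2 ^ b * (U / 2 ^ b : ℕ)) := by
        unfold th
        rw [Real.log_mul (by positivity) hUr.ne', Real.log_mul (by positivity) hUr.ne',
          Real.log_mul (by positivity) (by positivity), Real.log_pow, Real.log_pow, Real.log_pow, hJh]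
        simp only [nsmul_eq_mul]
        push_cast
        linear_combination (h : ℝ) * hκ2
      have e3 : TV α β R (fun U => th κ c ((2 : ℝ) ^ (J + b) * U)) n₀ J b U h (3 ^ μ * (q : ℤ) + r) ↔
          R (th κ c (3 ^ h * 2 ^ b * (U / 2 ^ b : ℕ))) (3 ^ μ * ((3 ^ (h - μ) * U + q : ℕ) : ℤ) + r) := by
        unfold TV
        rw [e2, e1]
        exact ⟨fun h => h.2, fun h => ⟨hU2, h⟩⟩
      rw [propext e3, ind_false (show ¬ (U / 2 ^ b < n₀) by omega), zero_add]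
      unfold jp
      rw [if_pos hU1]
      have hz : 3 ^ μ * q + r < 3 ^ h := by
        have e4 : 3 ^ h = 3 ^ μ * 3 ^ (h - μ) := by rw [← pow_add]; congr 1; omega
        rw [e4]
        calc 3 ^ μ * q + r < 3 ^ μ * q + 3 ^ μ := by omega
          _ = 3 ^ μ * (q + 1) := by ring
          _ ≤ 3 ^ μ * 3 ^ (h - μ) := Nat.mul_le_mul_left _ hq
      have e5 : ((3 ^ μ * ((3 ^ (h - μ) * U + q : ℕ) : ℤ) + r : ℤ) : ℝ) = 3 ^ h * U + ((3 ^ μ * q + r : ℕ) : ℝ) := by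
        rw [← e1]; push_cast; ring
      apply differ hfl hκ hw hU1
      · rw [e5]
        have g1 : 2 ^ b * (U / 2 ^ b) ≤ U := Nat.mul_div_le _ _
        have g2 : (2 : ℝ) ^ b * ((U / 2 ^ b : ℕ) : ℝ) ≤ U := by exact_mod_cast g1
        have g3 : (0 : ℝ) ≤ ((3 ^ μ * q + r : ℕ) : ℝ) := Nat.cast_nonneg _
        calc (3 : ℝ) ^ h * 2 ^ b * ((U / 2 ^ b : ℕ) : ℝ) = 3 ^ h * (2 ^ b * ((U / 2 ^ b : ℕ) : ℝ)) := by ring
          _ ≤ 3 ^ h * U := by gcongr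
          _ ≤ _ := by linarith
      · rw [e5]
        have g1 : U + 1 ≤ 2 ^ b * (U / 2 ^ b + 1) := by
          have := Nat.lt_div_mul_add (a := U) (b := 2 ^ b) (by positivity)
          have e6 : 2 ^ b * (U / 2 ^ b + 1) = U / 2 ^ b * 2 ^ b + 2 ^ b := by ring
          omega
        have g2 : (U : ℝ) + 1 ≤ (2 : ℝ) ^ b * (((U / 2 ^ b : ℕ) : ℝ) + 1) := by exact_mod_cast g1
        have g3 : ((3 ^ μ * q + r : ℕ) : ℝ) ≤ 3 ^ h := by exact_mod_cast hz.le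
        calc (3 : ℝ) ^ h * U + ((3 ^ μ * q + r : ℕ) : ℝ) ≤ 3 ^ h * (U + 1) := by linarith
          _ ≤ 3 ^ h * ((2 : ℝ) ^ b * (((U / 2 ^ b : ℕ) : ℝ) + 1)) := by gcongr
          _ = _ := by ring
    · rw [ind_true (show U / 2 ^ b < n₀ by omega)]
      exact (ind_le_one _).trans (by linarith)
  refine (sum_le_sum fun U hU => sum_le_sum fun L hL => hpt U hU L hL).trans ?_
  simp only [sum_const, card_range, nsmul_eq_mul]
  rw [← mul_sum]
  push_cast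
  apply mul_le_mul_of_nonneg_left _ (by positivity)
  rw [pow_add, sum_split]
  have e7 : ∀ U ∈ range (2 ^ u), ∑ L ∈ range (2 ^ b),
      (ind ((2 ^ b * U + L) / 2 ^ b < n₀) + jp κ c (3 ^ h * 2 ^ b) ((2 ^ b * U + L) / 2 ^ b)) =
      2 ^ b * (ind (U < n₀) + jp κ c (3 ^ h * 2 ^ b) U) := by
    intro U _
    have e8 : ∀ L ∈ range (2 ^ b), (ind ((2 ^ b * U + L) / 2 ^ b < n₀) +
        jp κ c (3 ^ h * 2 ^ b) ((2 ^ b * U + L) / 2 ^ b)) = ind (U < n₀) + jp κ c (3 ^ h * 2 ^ b) U := by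
      intro L hL
      rw [mem_range] at hL
      rw [Nat.mul_add_div (by positivity), Nat.div_eq_of_lt hL, add_zero]
    rw [sum_congr rfl e8, sum_const, card_range, nsmul_eq_mul]
    push_cast
    rfl
  rw [sum_congr rfl e7, ← mul_sum, sum_add_distrib]
  apply mul_le_mul_of_nonneg_left _ (by positivity)
  exact add_le_add (Pool.Agent.H620.Inf2.sum_lt_ind _ _) (sum_jp hw u)

end Pool.Agent.H620.Thr
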