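import Pool.Agent.H620.Thr.Param
import Pool.Agent.H620.Thr.Model
import Pool.Agent.H620.Inf2.Tools

/-! The total influence of the sets given by the critical threshold. -/

set_option autoImplicit false

namespace Pool.Agent.H620.Thr

open Finset Filter Topology
open Pool.Agent.H620.Inf (TI Str ne' bits stage' ev_exp ev_pow ind)
open Pool.Agent.H620.Inf2 (Sg Fam Large)

theorem loc_of {d : ℤ} (hd : Sg d) {α β : ℝ} {n₀ : ℕ} {R : ℝ → ℤ → Prop} (hR : Fam d α β n₀ R) (hn₀ : 1 ≤ n₀)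
    (hfl : ∀ (a a' : ℝ) (x : ℤ), ⌊a⌋ = ⌊a'⌋ → (R a x ↔ R a' x)) {κ : ℝ} (hκ : 0 ≤ κ)
    (hκ2 : κ * (2 * Real.log 2 - Real.log 3) = -(2 * α + β)) (c : ℝ) (k : ℕ) :
    Loc d (fun x => R (th κ c (x : ℝ)) x) (n₀ + (⌈κ⌉₊ * k + 1)) k := by
  intro J b u hJ hk
  have hN : (n₀ : ℝ) + (κ * (u * Real.log 2) + 1) ≤ ((n₀ + (⌈κ⌉₊ * k + 1) : ℕ) : ℝ) := by
    push_cast
    have h1 : κ ≤ (⌈κ⌉₊ : ℝ) := Nat.le_ceil κ
    have h2 : (u : ℝ) * Real.log 2 ≤ k := by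
      have h3 : (u : ℝ) ≤ k := by exact_mod_cast (show u ≤ k by omega)
      have h4 := Real.log_two_lt_d9
      have h5 : 0 < Real.log 2 := Real.log_pos (by norm_num)
      calc (u : ℝ) * Real.log 2 ≤ k * 1 := mul_le_mul h3 (by linarith) h5.le (Nat.cast_nonneg k)
        _ = k := mul_one _
    have h6 : κ * ((u : ℝ) * Real.log 2) ≤ (⌈κ⌉₊ : ℝ) * k := by
      apply mul_le_mul h1 h2 _ (Nat.cast_nonneg _)
      have h5 : 0 < Real.log 2 := Real.log_pos (by norm_num)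
      positivity
    linarith
  refine ⟨TP R (fun U => th κ c ((2 : ℝ) ^ (J + b) * U)) n₀ J b,
    TV α β R (fun U => th κ c ((2 : ℝ) ^ (J + b) * U)) n₀ J b,
    fun U L hL => TP_TV hd hR _ J b U hL,
    fun μ hq par L hL L' hL' h => TP_coal hd hR _ hq hL hL' h, ?_, ?_⟩
  · rw [← hk]
    have h1 := TP_diff (c := c) hfl hκ hn₀ J b u
    rw [hk] at h1 ⊢
    refine h1.trans ?_
    gcongr
  · intro μ r hμ hr
    have h1 := phase (α := α) (β := β) (c := c) hfl hκ hκ2 hn₀ hJ b u hμ hr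
    refine h1.trans ?_
    gcongr

theorem str_all {d : ℤ} (hd : Sg d) {η : ℝ} (hη : 0 < η) (hη1 : η ≤ 1 / 2) : ∃ A₀ : ℝ, 1 ≤ A₀ ∧
    ∀ {Q : ℤ → Prop} {C : ℕ}, (∀ k : ℕ, Loc d Q (C * (k + 1)) k) →
    (∀ᶠ k : ℕ in atTop, TI (fun n : ℕ => Q (n : ℤ)) k ≤ 2 ^ k * (k : ℝ) ^ (1 / 2 - η)) →
    ∀ᶠ k : ℕ in atTop, Str Q A₀ (η / 8) k := by
  set δ := η / 8 with hδd
  have hδ : 0 < δ := by positivity
  have hδ1 : δ ≤ 1 / 16 := by rw [hδd]; linarith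
  obtain ⟨κ₀, C₀, hκ₀, hC₀, hsc⟩ := scale hd ⌈3 / δ⌉₊
  obtain ⟨C₁, hC₁, hco⟩ := Pool.Agent.H620.Inf.coal_num
  have hB : 3 ≤ δ * (⌈3 / δ⌉₊ : ℕ) := by
    have := Nat.le_ceil (3 / δ)
    rw [div_le_iff₀ hδ] at this
    linarith
  refine ⟨50 * C₀ + 3000, by linarith, fun {Q C} hloc hTI => ?_⟩
  have h1 := tendsto_natCast_atTop_atTop.eventually (ev_all (κ₀ := κ₀) (C₁ := C₁) hδ hδ1)
  have h2 : ∀ᶠ x : ℝ in atTop, (2 * C) * x ^ (4 : ℝ) ≤ Real.exp (x / 8) := by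
    have h8 := ev_pow (2 * C : ℝ) (show (4 : ℝ) < 5 by norm_num)
    have h9 := ev_exp 5 (show (0 : ℝ) < 1 by norm_num) (show (0 : ℝ) < 1 / 8 by norm_num)
    filter_upwards [h8, h9] with x a8 a9
    rw [Real.rpow_one] at a9
    refine a8.trans ?_
    have e : x / 8 = 1 / 8 * x := by ring
    rw [e]
    exact a9
  have h2' := tendsto_natCast_atTop_atTop.eventually h2
  filter_upwards [h1, hTI, h2', eventually_ge_atTop 1] with k hk hT hk2 hk1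
  obtain ⟨x1, x2, x3, x4, x5, x6⟩ := hk
  have e : (1 : ℝ) / 2 - 8 * δ = 1 / 2 - η := by rw [hδd]; ring
  refine str_k hd hδ hδ1 hκ₀ hC₀ hC₁ hB hco hsc (hloc k) x1 x2 x3 x4 x5 x6 ?_ (by rw [e]; exact hT)
  refine le_trans ?_ hk2
  have hk0 : (0 : ℝ) < k := by exact_mod_cast hk1
  have e4 : (k : ℝ) ^ (4 : ℝ) = k * (k : ℝ) ^ (3 : ℝ) := by
    have : (4 : ℝ) = 1 + 3 := by norm_num
    rw [this, Real.rpow_add hk0, Real.rpow_one]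
  rw [e4]
  have h3 : 0 ≤ (k : ℝ) ^ (3 : ℝ) := Real.rpow_nonneg hk0.le _
  push_cast
  have h4 : (k : ℝ) + 1 ≤ 2 * k := by
    have : (1 : ℝ) ≤ k := by exact_mod_cast hk1
    linarith
  calc (C : ℝ) * (k + 1) * (k : ℝ) ^ (3 : ℝ) ≤ C * (2 * k) * (k : ℝ) ^ (3 : ℝ) := by gcongr
    _ = 2 * C * (k * (k : ℝ) ^ (3 : ℝ)) := by ring

/-- **Sets with local models whose density is neither `0` nor `1` have large total influence.** -/
theorem large_of {d : ℤ} (hd : Sg d) {Q : ℤ → Prop} {C : ℕ} (hloc : ∀ k : ℕ, Loc d Q (C * (k + 1)) k)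
    {l : ℝ} (hl0 : 0 < l) (hl1 : l < 1)
    (hl : Tendsto (fun N : ℕ => ({n : ℕ | 1 ≤ n ∧ n ≤ N ∧ Q (n : ℤ)}.ncard : ℝ) / N) atTop (𝓝 l)) :
    Large (fun n : ℕ => Q (n : ℤ)) := by
  intro η hη h
  set η' := min η (1 / 2) with hη'
  have hη'0 : 0 < η' := lt_min hη (by norm_num)
  have hη'1 : η' ≤ 1 / 2 := min_le_right _ _
  obtain ⟨A₀, hA, hstr⟩ := str_all hd hη'0 hη'1
  have h1 : ∀ᶠ k : ℕ in atTop, Str Q A₀ (η' / 8) k := by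
    apply hstr hloc
    filter_upwards [h, eventually_ge_atTop 1] with k hk hk1
    refine hk.trans ?_
    apply mul_le_mul_of_nonneg_left _ (by positivity)
    apply Real.rpow_le_rpow_of_exponent_le (by exact_mod_cast hk1)
    have := min_le_left η (1 / 2)
    linarith
  obtain ⟨L₁, hL₁, hst⟩ := stage' hη'0 hη'1 hA h1
  refine Pool.Agent.H620.Gen.contraG (P := fun n : ℕ => Q (n : ℤ)) hl0 hl1 hl ?_
  intro ε hε L₂
  exact Pool.Agent.H620.Gen.multiLog (A := 50 * A₀ * (2 / (η' / 8)) ^ 2) (c := 1) (θ := 79 / 80) (θ' := 1 / 2)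
    (by positivity) hL₁ (by norm_num) (by norm_num) (by norm_num) (by norm_num) hst ε hε L₂

/-- **The sets given by the critical threshold**: large total influence, if the density is neither `0` nor `1`. -/
theorem threshold_large {d : ℤ} (hd : Sg d) {α β : ℝ} {n₀ : ℕ} {R : ℝ → ℤ → Prop} (hR : Fam d α β n₀ R) (hn₀ : 1 ≤ n₀)
    (hfl : ∀ (a a' : ℝ) (x : ℤ), ⌊a⌋ = ⌊a'⌋ → (R a x ↔ R a' x)) {κ : ℝ} (hκ : 0 ≤ κ)
    (hκ2 : κ * (2 * Real.log 2 - Real.log 3) = -(2 * α + β)) (c : ℝ) {l : ℝ} (hl0 : 0 < l) (hl1 : l < 1)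
    (hl : Tendsto (fun N : ℕ => ({n : ℕ | 1 ≤ n ∧ n ≤ N ∧ R (κ * Real.log n + c) (n : ℤ)}.ncard : ℝ) / N) atTop (𝓝 l)) :
    Large (fun n : ℕ => R (κ * Real.log n + c) (n : ℤ)) := by
  have h1 : ∀ k : ℕ, Loc d (fun x => R (th κ c (x : ℝ)) x) ((n₀ + ⌈κ⌉₊ + 1) * (k + 1)) k := by
    intro k J b u hJ hk
    obtain ⟨P, V, g1, g2, g3, g4⟩ := loc_of hd hR hn₀ hfl hκ hκ2 c k J b u hJ hk
    have hle : (((n₀ + (⌈κ⌉₊ * k + 1) : ℕ) : ℝ)) ≤ (((n₀ + ⌈κ⌉₊ + 1) * (k + 1) : ℕ) : ℝ) := by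
      have : n₀ + (⌈κ⌉₊ * k + 1) ≤ (n₀ + ⌈κ⌉₊ + 1) * (k + 1) := by nlinarith
      exact_mod_cast this
    refine ⟨P, V, g1, g2, g3.trans (by gcongr), fun μ r hμ hr => (g4 μ r hμ hr).trans (by gcongr)⟩
  exact large_of hd h1 hl0 hl1 hl

end Pool.Agent.H620.Thr
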