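import Pool.Agent.H620.Thr.Dens
import Pool.Graph.R_seed8.H499R2.HL.C

/-! Numbers of odd terms at most `κ log n + c`, for the critical `κ`. -/

set_option autoImplicit false

namespace Pool.Agent.H620.Thr

open Finset Filter Topology
open Pool.Agent.H499R2.ND (Dn Tn cnt Phi IsHt)
open Pool.Agent.H499R2.LT (odn)
open Pool.Agent.H499R2.HL (H law_k law_o bo H_two odn_two ht_H)
open Pool.Agent.H620.Inf (TI In ne' TI_approx ev_exp ev_pow ind ind_nonneg ind_mono ne'_eq_ind)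
open Pool.Agent.H620.Inf2 (Sg Fam Large)

theorem congr_sparse {P g : ℕ → Prop} (h : ∀ k : ℕ, ∑ M ∈ range (2 ^ k), ne' (g M) (P M) ≤ k + 1) (hg : Large g) :
    Large P := by
  intro η hη hP
  apply hg (η / 2) (by positivity)
  have h1 := tendsto_natCast_atTop_atTop.eventually (ev_pow 2 (show (1 : ℝ) / 2 - η < 1 / 2 - η / 2 by linarith))
  have h2 := tendsto_natCast_atTop_atTop.eventually
    (ev_exp (3 / 2 + η / 2) (show (0 : ℝ) < 1 by norm_num) (show (0 : ℝ) < Real.log 2 / 2 by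
      have := Real.log_pos (show (1 : ℝ) < 2 by norm_num)
      positivity))
  have h3 : ∀ᶠ k : ℕ in atTop, (8 : ℝ) ≤ 2 ^ (k / 2) := by
    filter_upwards [eventually_ge_atTop 6] with k hk
    calc (8 : ℝ) = 2 ^ 3 := by norm_num
      _ ≤ 2 ^ (k / 2) := pow_le_pow_right₀ (by norm_num) (by omega)
  filter_upwards [hP, h1, h2, h3, eventually_ge_atTop 1] with k a1 a2 a3 a4 a5
  have hk : (1 : ℝ) ≤ k := by exact_mod_cast a5
  have hk0 : (0 : ℝ) < k := by linarith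
  have hsum := h k
  have h6 := TI_approx g P k
  have h7 : 2 * (k : ℝ) * ∑ M ∈ range (2 ^ k), ne' (g M) (P M) ≤ 4 * (k * k) := by
    calc 2 * (k : ℝ) * ∑ M ∈ range (2 ^ k), ne' (g M) (P M) ≤ 2 * k * (k + 1) := by gcongr
      _ ≤ 2 * k * (k + k) := by gcongr
      _ = 4 * (k * k) := by ring
  have h8 : (8 : ℝ) * (k * k) ≤ 2 ^ k * (k : ℝ) ^ (1 / 2 - η / 2) := by
    have e : (k : ℝ) * k = (k : ℝ) ^ (3 / 2 + η / 2) * (k : ℝ) ^ (1 / 2 - η / 2) := by
      rw [← Real.rpow_add hk0]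
      have : (3 : ℝ) / 2 + η / 2 + (1 / 2 - η / 2) = 2 := by ring
      rw [this]
      norm_cast
      ring
    have hy : 0 < (k : ℝ) ^ (1 / 2 - η / 2) := Real.rpow_pos_of_pos hk0 _
    have h9 : (k : ℝ) ^ (3 / 2 + η / 2) * 8 ≤ 2 ^ k := by
      rw [Real.rpow_one] at a3
      have h10 : Real.exp (Real.log 2 / 2 * k) * 2 ^ (k / 2) ≤ 2 ^ k := by
        have e1 : (2 : ℝ) ^ (k / 2) = Real.exp (((k / 2 : ℕ) : ℝ) * Real.log 2) := by
          rw [mul_comm, Real.exp_mul, Real.exp_log (by norm_num), Real.rpow_natCast]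
        have e2 : (2 : ℝ) ^ k = Real.exp ((k : ℝ) * Real.log 2) := by
          rw [mul_comm, Real.exp_mul, Real.exp_log (by norm_num), Real.rpow_natCast]
        rw [e1, e2, ← Real.exp_add]
        apply Real.exp_le_exp.2
        have h11 : ((k / 2 : ℕ) : ℝ) ≤ k / 2 := by
          have := Nat.cast_div_le (α := ℝ) (m := k) (n := 2)
          simpa using this
        have h12 := Real.log_pos (show (1 : ℝ) < 2 by norm_num)
        have h13 : ((k / 2 : ℕ) : ℝ) * Real.log 2 ≤ k / 2 * Real.log 2 := mul_le_mul_of_nonneg_right h11 h12.le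
        linarith
      calc (k : ℝ) ^ (3 / 2 + η / 2) * 8 ≤ Real.exp (Real.log 2 / 2 * k) * 2 ^ (k / 2) := by gcongr
        _ ≤ 2 ^ k := h10
    calc (8 : ℝ) * (k * k) = ((k : ℝ) ^ (3 / 2 + η / 2) * 8) * (k : ℝ) ^ (1 / 2 - η / 2) := by
          rw [mul_right_comm, ← e]; ring
      _ ≤ 2 ^ k * (k : ℝ) ^ (1 / 2 - η / 2) := by gcongr
  have h14 : 2 ^ k * (2 * (k : ℝ) ^ (1 / 2 - η)) ≤ 2 ^ k * (k : ℝ) ^ (1 / 2 - η / 2) := by gcongr
  linarith

theorem odn_mono {a b : ℕ} (h : a ≤ b) (n : ℕ) : odn a n ≤ odn b n := by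
  unfold odn
  apply card_le_card
  apply filter_subset_filter
  exact range_subset_range.2 h

theorem RO_iff (a : ℝ) (n : ℕ) : RO a (n : ℤ) ↔ ∃ k : ℕ, (odn k n : ℝ) ≤ a ∧ H k n := by
  unfold RO
  rw [Int.toNat_natCast]
  constructor
  · rintro ⟨j, h1, h2⟩
    obtain ⟨k, hk, g⟩ := first_T h2
    refine ⟨k, ?_, g⟩
    have : (odn k n : ℝ) ≤ odn j n := by exact_mod_cast odn_mono hk n
    linarith
  · rintro ⟨k, h1, h2⟩
    exact ⟨k, h1, h2.1⟩

theorem dens_O (c : ℝ) : ∃ δ : ℝ, 0 < δ ∧ δ ≤ 1 ∧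
    Dn (fun n => RO (1 / Real.log (4 / 3) * Real.log n + c) (n : ℤ)) (δ / 2) := by
  obtain ⟨δ, h0, h1, _, _, h4⟩ := law_k
  refine ⟨δ, h0, h1, ?_⟩
  have h3 : 0 < Real.log 2 := Real.log_pos (by norm_num)
  have hl := log43_pos
  have hs : 0 < Real.sqrt (2 / Real.log (4 / 3) ^ 3) := Real.sqrt_pos.2 (by positivity)
  refine dens_of (F := fun x n => ∃ k : ℕ, (odn k n : ℝ) ≤ bo x (Real.log n) ∧ H k n ∧
      (odn k n : ℤ) ≡ 0 [ZMOD (1 : ℕ)]) (δ := δ) ?_
    (c := c) (σ := Real.log 2 * Real.sqrt (2 / Real.log (4 / 3) ^ 3)) (by positivity) ?_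
  · intro x
    have h5 := law_o (m := 1) (b := 0) (fun x => (h4 1 0 le_rfl).2 x) x
    simpa using h5
  · intro x n _
    have e : bo x (Real.log n) = 1 / Real.log (4 / 3) * Real.log n +
        x * (Real.log 2 * Real.sqrt (2 / Real.log (4 / 3) ^ 3) * Real.sqrt (Real.log n)) := by
      unfold bo
      rw [sqrt_split]; ring
    rw [RO_iff]
    constructor
    · rintro hx ⟨k, g1, g2, _⟩
      rw [e] at g1
      exact ⟨k, by linarith, g2⟩
    · rintro hx ⟨k, g1, g2⟩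
      refine ⟨k, by rw [e]; linarith, g2, ?_⟩
      simp [Int.ModEq]

/-- **Number of odd terms at most `1 / log (4/3) log n + c`**: large total influence -/
theorem large_O (c : ℝ) : Large (fun n : ℕ => RO (1 / Real.log (4 / 3) * Real.log n + c) (n : ℤ)) := by
  obtain ⟨δ, h0, h1, h2⟩ := dens_O c
  have hl := log43_pos
  refine threshold_large (Or.inl rfl) RO_fam (by norm_num) RO_floor (by positivity) ?_ c
    (l := δ / 2) (by positivity) (by linarith) h2
  rw [log43_eq]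
  field_simp
  norm_num

/-- the odd part -/
def oddPart (n : ℕ) : ℕ := n / 2 ^ padicValNat 2 n

theorem H_pow (e : ℕ) {k m : ℕ} (h : H k m) : H (k + e) (2 ^ e * m) ∧ odn (k + e) (2 ^ e * m) = odn k m := by
  induction e with
  | zero => simpa using h
  | succ e ih =>
    have e1 : 2 ^ (e + 1) * m = 2 * (2 ^ e * m) := by ring
    rw [e1, ← add_assoc]
    exact ⟨H_two ih.1, (odn_two _ _).trans ih.2⟩

theorem H_pow' (e : ℕ) {k m : ℕ} (h : H k (2 ^ e * m)) : ∃ k', H k' m := by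
  induction e generalizing k with
  | zero => exact ⟨k, by simpa using h⟩
  | succ e ih =>
    have e1 : 2 ^ (e + 1) * m = 2 * (2 ^ e * m) := by ring
    rw [e1] at h
    obtain ⟨k', _, hk'⟩ := Pool.Agent.H499R2.HL.H_of_two h
    exact ih hk'

theorem odd_part {n : ℕ} (hn : 1 ≤ n) : 2 ^ padicValNat 2 n * oddPart n = n ∧ oddPart n % 2 = 1 := by
  have h1 : 2 ^ padicValNat 2 n ∣ n := pow_padicValNat_dvd
  have h2 : 2 ^ padicValNat 2 n * oddPart n = n := Nat.mul_div_cancel' h1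
  refine ⟨h2, ?_⟩
  by_contra h
  have h3 : 2 ∣ oddPart n := by omega
  have h4 : 2 ^ (padicValNat 2 n + 1) ∣ n := by
    rw [pow_succ]
    nth_rewrite 2 [← h2]
    exact Nat.mul_dvd_mul_left _ h3
  exact pow_succ_padicValNat_not_dvd (p := 2) (by omega) h4

/-- heights and numbers of odd terms -/
theorem height_iff (a : ℝ) {n : ℕ} (hn : 1 ≤ n) (h1 : oddPart n ≠ 1) :
    (∃ h : ℕ, IsHt (oddPart n) h ∧ (h : ℝ) ≤ a) ↔ RO a (n : ℤ) := by
  obtain ⟨e1, e2⟩ := odd_part hn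
  rw [RO_iff]
  constructor
  · rintro ⟨h, g1, g2⟩
    obtain ⟨k, g3, rfl⟩ := (ht_H e2 h1 h).1 g1
    obtain ⟨g4, g5⟩ := H_pow (padicValNat 2 n) g3
    rw [e1] at g4 g5
    exact ⟨_, by rw [g5]; exact g2, g4⟩
  · rintro ⟨k, g1, g2⟩
    have g2' := g2
    rw [← e1] at g2'
    obtain ⟨k', g3⟩ := H_pow' _ g2'
    obtain ⟨g4, g5⟩ := H_pow (padicValNat 2 n) g3
    rw [e1] at g4 g5
    obtain rfl := Pool.Agent.H499R2.HL.H_unique g2 g4
    rw [g5] at g1
    exact ⟨_, (ht_H e2 h1 _).2 ⟨k', g3, rfl⟩, g1⟩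

theorem sum_pow_ind (k : ℕ) : ∑ M ∈ range (2 ^ k), ind (M = 0 ∨ ∃ e, M = 2 ^ e) ≤ k + 1 := by
  classical
  rw [← Pool.Agent.H620.Inf.card_eq_ind]
  have h1 : (range (2 ^ k)).filter (fun M => M = 0 ∨ ∃ e, M = 2 ^ e) ⊆ insert 0 ((range k).image (fun e => 2 ^ e)) := by
    intro M hM
    rw [mem_filter, mem_range] at hM
    rw [mem_insert, mem_image]
    rcases hM.2 with h | ⟨e, rfl⟩
    · exact Or.inl h
    · exact Or.inr ⟨e, mem_range.2 ((Nat.pow_lt_pow_iff_right (by norm_num)).1 hM.1), rfl⟩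
  have h2 := (card_le_card h1).trans (card_insert_le _ _)
  have h3 := card_image_le (s := range k) (f := fun e => 2 ^ e)
  rw [card_range] at h3
  have h4 : ((range (2 ^ k)).filter (fun M => M = 0 ∨ ∃ e, M = 2 ^ e)).card ≤ k + 1 := by omega
  exact_mod_cast h4

/-- **Heights**: large total influence -/
theorem large_H (c : ℝ) : Large (fun n : ℕ => 1 ≤ n ∧ ∃ h : ℕ, IsHt (oddPart n) h ∧
    (h : ℝ) ≤ 1 / Real.log (4 / 3) * Real.log n + c) := by
  refine congr_sparse (fun k => ?_) (large_O c)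
  refine le_trans (sum_le_sum fun M _ => ?_) (sum_pow_ind k)
  rw [ne'_eq_ind]
  apply ind_mono
  intro h
  by_contra hcon
  rw [not_or] at hcon
  obtain ⟨h0, h1⟩ := hcon
  apply h
  have hM : 1 ≤ M := by omega
  rw [← height_iff _ hM (fun h2 => h1 ⟨padicValNat 2 M, by
    have := (odd_part hM).1
    rw [h2, mul_one] at this
    exact this.symm⟩)]
  exact ⟨fun g => ⟨hM, g⟩, fun g => g.2⟩

end Pool.Agent.H620.Thr
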