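import Pool.Agent.H620.Inf.Binom

/-! Typical numbers of odd steps, an interval that contains the middle. -/

set_option autoImplicit false

namespace Pool.Agent.H620.Thr

open Finset
open Pool.Agent.TH930.EBQ (ones wd words cw T sum_wd card_words)
open Pool.Agent.H620.Inf (ind ind_nonneg ind_le_one ind_true ind_false ind_mono ind_or card_ones card_ones' typ choose_mono)

theorem typ_mid {J D : ℕ} (hJ : 2 ∣ J) (hD : 0 < D) {p : ℝ} (hp : 0 < p)
    (hlt : ((D : ℝ) + 1) * p + J / (D : ℝ) ^ 2 < 1) :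
    ∃ o₀ o₁ : ℕ, o₀ ≤ J / 2 ∧ J / 2 ≤ o₁ ∧ J ≤ 2 * o₀ + D ∧
      (∀ o ∈ Icc o₀ o₁, p * 2 ^ J ≤ (((words J).filter (fun v => ones v = o)).card : ℝ)) ∧
      ∑ v ∈ words J, ind (¬ (o₀ ≤ ones v ∧ ones v ≤ o₁)) ≤ 2 ^ J * (((D : ℝ) + 1) * p + J / (D : ℝ) ^ 2) := by
  obtain ⟨a, b, hab, h1, h2, h3, h4⟩ := typ (J := J) hD hp hlt
  have e1 := sum_wd odd_one J (fun v => ind (¬ (a ≤ ones v ∧ ones v ≤ b)))
  have h4' : ∑ v ∈ words J, ind (¬ (a ≤ ones v ∧ ones v ≤ b)) ≤ 2 ^ J * (((D : ℝ) + 1) * p + J / (D : ℝ) ^ 2) := by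
    rw [← e1]; exact h4
  have hpos : ∀ o, p * 2 ^ J ≤ (J.choose o : ℝ) → o ≤ J := by
    intro o ho
    by_contra hcon
    rw [Nat.choose_eq_zero_of_lt (by omega)] at ho
    have : 0 < p * 2 ^ J := by positivity
    push_cast at ho
    linarith
  have h3' : ∀ o ∈ Icc a b, p * 2 ^ J ≤ (J.choose o : ℝ) := by
    intro o ho
    have := h3 o ho
    rwa [card_ones'] at this
  have ha := h3' a (mem_Icc.2 ⟨le_rfl, hab⟩)
  have hb := h3' b (mem_Icc.2 ⟨hab, le_rfl⟩)
  have haJ := hpos a ha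
  have hbJ := hpos b hb
  refine ⟨min a (J / 2), max b (J / 2), min_le_right _ _, le_max_right _ _, by omega, ?_, ?_⟩
  · intro o ho
    rw [mem_Icc] at ho
    rw [card_ones']
    by_cases h5 : a ≤ o
    · by_cases h6 : o ≤ b
      · exact h3' o (mem_Icc.2 ⟨h5, h6⟩)
      · refine hb.trans ?_
        exact_mod_cast choose_mono (show o ≤ J / 2 by omega) (show b ≤ o by omega)
    · refine ha.trans ?_
      rw [← Nat.choose_symm haJ, ← Nat.choose_symm (show o ≤ J by omega)]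
      exact_mod_cast choose_mono (show J - o ≤ J / 2 by omega) (show J - a ≤ J - o by omega)
  · refine (sum_le_sum fun v _ => ?_).trans h4'
    apply ind_mono
    intro h5 h6
    exact h5 ⟨by omega, by omega⟩

end Pool.Agent.H620.Thr
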