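import Pool.Agent.H620.Thr.Scale
import Pool.Agent.H620.Thr.Typ
import Pool.Agent.H620.Thr.Coal
import Pool.Agent.H620.Inf2.Param

/-! The choice of the parameters. -/

set_option autoImplicit false

namespace Pool.Agent.H620.Thr

open Finset Filter Topology
open Pool.Agent.TH930.EBQ (ones wd words cw T sum_wd)
open Pool.Agent.H499R2.CO (Tz q)
open Pool.Agent.H620.Inf (ind ind_nonneg ind_le_one ind_true ind_false ind_mono ind_or ne'_eq_ind ne' In TI exists_window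
  sum_split Str ev_pow ev_exp log_le_pow log2_bd log3_bd ceil_bd kappa_num)
open Pool.Agent.H620.Inf2 (Sg aw cv pt Fam In_approx sum_lt_ind)

/-- the inequalities for large `x` -/
theorem ev_all {δ κ₀ C₁ : ℝ} (hδ : 0 < δ) (hδ1 : δ ≤ 1 / 16) : ∀ᶠ x : ℝ in atTop,
    1000 ≤ x ∧ 6 ≤ x ^ δ ∧ (C₁ * 36 / δ) * x ^ (3 * δ / 2) ≤ x ^ (2 * δ) ∧ (128 / κ₀) * x ^ (2 * δ) ≤ x ∧
    4000 * x ^ (1 / 2 + δ) ≤ x ∧ x ^ (3 : ℝ) ≤ Real.exp (1 * x ^ δ) := by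
  have h1 := ev_pow (C₁ * 36 / δ) (show 3 * δ / 2 < 2 * δ by linarith)
  have h2 := ev_pow (128 / κ₀) (show 2 * δ < 1 by linarith)
  have h3 := ev_pow 4000 (show 1 / 2 + δ < 1 by linarith)
  have h4 := ev_exp 3 hδ (show (0 : ℝ) < 1 by norm_num)
  have h5 := (tendsto_rpow_atTop hδ).eventually_ge_atTop 6
  filter_upwards [h1, h2, h3, h4, h5, eventually_ge_atTop (1000 : ℝ)] with x a1 a2 a3 a4 a5 a6
  rw [Real.rpow_one] at a2 a3
  exact ⟨a6, a5, a1, a2, a3, a4⟩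

/-- local models of a set -/
def Loc (d : ℤ) (Q : ℤ → Prop) (N k : ℕ) : Prop :=
  ∀ J b u : ℕ, 2 ∣ J → J + b + u = k → ∃ (P : ℕ → Prop) (V : ℕ → ℕ → ℤ → Prop),
    (∀ U, ∀ L < 2 ^ J, (P (2 ^ J * U + L) ↔ V U (aw d J L) (cv d J L))) ∧
    (∀ μ : ℕ, (∀ i ≤ 1, ∀ r : ℤ, |r| ≤ 3 ^ (μ + 1) → q Pool.Agent.H499R2.CO.step (0, 0) b (i, r) ≤ 1 / 2) →
      ∀ par, ∀ L < 2 ^ J, ∀ L' < 2 ^ J, pt d μ par J L = pt d μ par J L' →
      ∃ G ⊆ range (2 ^ b), (2 : ℝ) ^ b ≤ 2 * G.card ∧ ∀ M ∈ G, ∀ U,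
        (P (2 ^ J * (2 ^ b * U + M) + L) ↔ P (2 ^ J * (2 ^ b * U + M) + L'))) ∧
    (∑ n ∈ range (2 ^ k), ne' (P n) (Q (n : ℤ)) ≤ 2 ^ (J + b) * N) ∧
    (∀ μ r : ℕ, μ ≤ J / 2 → r < 3 ^ μ →
      ∑ U ∈ range (2 ^ (b + u)), ∑ q ∈ range (3 ^ (J / 2 - μ)),
        ind (¬ (V U (J / 2) (3 ^ μ * (q : ℤ) + r) ↔ Q (3 ^ μ * ((3 ^ (J / 2 - μ) * U + q : ℕ) : ℤ) + r))) ≤
        3 ^ (J / 2 - μ) * (2 ^ b * N))

theorem str_k {d : ℤ} (hd : Sg d) {δ κ₀ C₀ C₁ : ℝ} {B : ℕ} (hδ : 0 < δ) (hδ1 : δ ≤ 1 / 16) (hκ₀ : 0 < κ₀)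
    (hC₀ : 0 < C₀) (hC₁ : 0 < C₁) (hB : 3 ≤ δ * B)
    (hcoal : ∀ μ b : ℕ, 1 ≤ b → C₁ * ((μ : ℝ) + 4) * Real.log (b + 1) ≤ b →
      ∀ i ≤ 1, ∀ r : ℤ, |r| ≤ 3 ^ (μ + 1) → q Pool.Agent.H499R2.CO.step (0, 0) b (i, r) ≤ 1 / 2)
    (hscale : ∀ (P : ℕ → Prop) (V : ℕ → ℕ → ℤ → Prop),
    ∀ J b u μ : ℕ, 1 ≤ J → 1 ≤ μ → (μ : ℝ) ^ 2 ≤ κ₀ * J →
    (∀ U, ∀ L < 2 ^ J, (P (2 ^ J * U + L) ↔ V U (aw d J L) (cv d J L))) →
    (∀ par, ∀ L < 2 ^ J, ∀ L' < 2 ^ J, pt d μ par J L = pt d μ par J L' →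
      ∃ G ⊆ range (2 ^ b), (2 : ℝ) ^ b ≤ 2 * G.card ∧ ∀ M ∈ G, ∀ U,
        (P (2 ^ J * (2 ^ b * U + M) + L) ↔ P (2 ^ J * (2 ^ b * U + M) + L'))) →
    ∀ o₀ o₁ o₂ : ℕ, μ ≤ o₀ → o₀ ≤ o₂ → o₂ ≤ o₁ → ∀ p : ℝ, 0 < p →
    (∀ o ∈ Icc o₀ o₁, p * 2 ^ J ≤ (((words J).filter (fun v => ones v = o)).card : ℝ)) →
    ∀ M : ℝ, 4 * ∑ j ∈ Ico J (J + b), In P (J + b + u) j +
      2 ^ (J + b + u) * (C₀ * J ^ 2 / (μ : ℝ) ^ B) ≤ M →
    ∃ (Y : ℕ → Prop) (r : ℕ), r < 3 ^ μ ∧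
      (∀ m : ℕ, (m : ℝ) ^ 2 ≤ κ₀ * J → (3 : ℝ) ^ m ≤ 2 ^ (b + u) → ∀ (r₀ : ℤ) (G : ℕ), 1 ≤ G →
        ∑ n ∈ range (2 ^ (J + b + u)), ind ((3 : ℤ) ^ m ∣ (n : ℤ) - r₀ ∧ ¬ (P n ↔ Y (3 ^ (o₂ - μ) * n / 2 ^ J))) ≤
          2 ^ (J + b + u) / 3 ^ m * ((1 + 4 / p) * (M / 2 ^ (J + b + u)) + C₀ * J ^ 2 / (μ : ℝ) ^ B +
            2 * ((∑ L ∈ range (2 ^ J), ind (¬ (o₀ ≤ aw d J L ∧ aw d J L ≤ o₁))) / 2 ^ J + J / (4 * G) +
              2 * (G / 3 ^ μ) + 2 / 2 ^ J))) ∧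
      ∑ U ∈ range (2 ^ (b + u)), ∑ q ∈ range (3 ^ (o₂ - μ)),
        ind (¬ (V U o₂ (3 ^ μ * (q : ℤ) + r) ↔ Y (3 ^ (o₂ - μ) * U + q))) ≤
        3 ^ (o₂ - μ) * (5 * (M / (p * 2 ^ J))))
    {Q : ℤ → Prop} {N k : ℕ} (hloc : Loc d Q N k) (x1 : 1000 ≤ (k : ℝ)) (x2 : 6 ≤ (k : ℝ) ^ δ)
    (x3 : (C₁ * 36 / δ) * (k : ℝ) ^ (3 * δ / 2) ≤ (k : ℝ) ^ (2 * δ)) (x4 : (128 / κ₀) * (k : ℝ) ^ (2 * δ) ≤ k)
    (x5 : 4000 * (k : ℝ) ^ (1 / 2 + δ) ≤ k) (x6 : (k : ℝ) ^ (3 : ℝ) ≤ Real.exp (1 * (k : ℝ) ^ δ))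
    (x9 : N * (k : ℝ) ^ (3 : ℝ) ≤ Real.exp ((k : ℝ) / 8))
    (hTI : TI (fun n : ℕ => Q (n : ℤ)) k ≤ 2 ^ k * (k : ℝ) ^ (1 / 2 - 8 * δ)) :
    Str Q (50 * C₀ + 3000) δ k := by
  set x : ℝ := (k : ℝ) with hx
  have hx0 : 0 < x := by linarith
  -- `μ`
  obtain ⟨m1, m2⟩ := ceil_bd (show 1 ≤ x ^ δ by linarith)
  set μ := ⌈x ^ δ⌉₊ with hμ
  have hμ1 : 1 ≤ μ := by
    have : (1 : ℝ) ≤ μ := by linarith
    exact_mod_cast this
  clear_value μ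
  -- `b`
  have hb0 : 1 ≤ x ^ (2 * δ) := Real.one_le_rpow (by linarith) (by linarith)
  obtain ⟨b1', b2'⟩ := ceil_bd hb0
  set b := 2 * ⌈x ^ (2 * δ)⌉₊ with hb
  have b1 : x ^ (2 * δ) ≤ (b : ℝ) := by
    rw [hb]; push_cast
    calc x ^ (2 * δ) ≤ 1 * (⌈x ^ (2 * δ)⌉₊ : ℝ) := by rw [one_mul]; exact b1'
      _ ≤ 2 * (⌈x ^ (2 * δ)⌉₊ : ℝ) := by gcongr; norm_num
  have b2 : (b : ℝ) ≤ 2 * x ^ (3 * δ) := by
    rw [hb]; push_cast
    calc (2 : ℝ) * (⌈x ^ (2 * δ)⌉₊ : ℝ) ≤ x ^ δ * (2 * x ^ (2 * δ)) := by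
          gcongr
          linarith
      _ = 2 * (x ^ δ * x ^ (2 * δ)) := by ring
      _ = 2 * x ^ (3 * δ) := by rw [← Real.rpow_add hx0]; congr 2; ring
  have hb1 : 1 ≤ b := by
    have : (1 : ℝ) ≤ b := by linarith
    exact_mod_cast this
  clear_value b
  have hb3δ : x ^ (3 * δ) ≤ x ^ (1 / 2 + δ) := Real.rpow_le_rpow_of_exponent_le (by linarith) (by linarith)
  have hxδ2 : x ^ δ ≤ x ^ (1 / 2 + δ) := Real.rpow_le_rpow_of_exponent_le (by linarith) (by linarith)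
  have hbx : 2000 * (b : ℝ) ≤ x := by linarith
  have hbk : 2000 * b ≤ k := by
    have hbx' : 2000 * (b : ℝ) ≤ (k : ℝ) := hbx
    exact_mod_cast hbx'
  have hk16 : 1000 ≤ k := by
    have x1' : (1000 : ℝ) ≤ (k : ℝ) := x1
    exact_mod_cast x1'
  have hq : ∀ i ≤ 1, ∀ r : ℤ, |r| ≤ 3 ^ (μ + 1) → q Pool.Agent.H499R2.CO.step (0, 0) b (i, r) ≤ 1 / 2 := by
    apply hcoal μ b hb1
    have g1 : (μ : ℝ) + 4 ≤ 6 * x ^ δ := by linarith
    have g2 : Real.log (b + 1) ≤ 6 / δ * x ^ (δ / 2) := by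
      have g3 : Real.log ((b : ℝ) + 1) ≤ Real.log (3 * x) := by
        apply Real.log_le_log (by positivity)
        linarith
      refine g3.trans ((log_le_pow (show 0 < δ / 2 by linarith) (by positivity)).trans ?_)
      rw [Real.mul_rpow (by norm_num) hx0.le]
      have g4 : (3 : ℝ) ^ (δ / 2) ≤ 3 := by
        calc (3 : ℝ) ^ (δ / 2) ≤ 3 ^ (1 : ℝ) := Real.rpow_le_rpow_of_exponent_le (by norm_num) (by linarith)
          _ = 3 := Real.rpow_one 3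
      have g5 : 0 < x ^ (δ / 2) := Real.rpow_pos_of_pos hx0 _
      calc 3 ^ (δ / 2) * x ^ (δ / 2) / (δ / 2) ≤ 3 * x ^ (δ / 2) / (δ / 2) := by gcongr
        _ = 6 / δ * x ^ (δ / 2) := by field_simp; ring
    have g6 : 0 ≤ Real.log ((b : ℝ) + 1) := Real.log_nonneg (by linarith)
    calc C₁ * ((μ : ℝ) + 4) * Real.log (b + 1) ≤ C₁ * (6 * x ^ δ) * (6 / δ * x ^ (δ / 2)) := by gcongr
      _ = C₁ * 36 / δ * (x ^ δ * x ^ (δ / 2)) := by ring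
      _ = C₁ * 36 / δ * x ^ (3 * δ / 2) := by rw [← Real.rpow_add hx0]; congr 2; ring
      _ ≤ x ^ (2 * δ) := x3
      _ ≤ b := b1
  -- the window
  set W := k / (16 * b) with hW
  have hW0 : 0 < W := Nat.div_pos (by omega) (by omega)
  have hWb : W * (16 * b) ≤ k := Nat.div_mul_le_self _ _
  have hWb' : 16 * (W * b) ≤ k := by
    have : W * (16 * b) = 16 * (W * b) := by ring
    omega
  have hW2 : k < W * (16 * b) + 16 * b := Nat.lt_div_mul_add (by omega)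
  clear_value W
  have hW3 : (k : ℝ) ≤ W * (32 * b) := by
    have h1 : W * (16 * b) + 16 * b ≤ W * (32 * b) := by
      have g1 : 16 * b ≤ W * (16 * b) := Nat.le_mul_of_pos_left _ hW0
      have g2 : W * (32 * b) = W * (16 * b) + W * (16 * b) := by ring
      omega
    have h2 : k ≤ W * (32 * b) := by omega
    exact_mod_cast h2
  set J₀ := 2 * (k / 16 + 1) with hJ₀
  have hJ₀a : k < 8 * J₀ ∧ 8 * J₀ ≤ k + 16 := by omega
  clear_value J₀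
  obtain ⟨i, hi, hwin⟩ := exists_window (fun n : ℕ => Q (n : ℤ)) (k := k) (J₀ := J₀) (b := b) hW0 (by omega)
  set J := J₀ + i * b with hJ
  have hJQ : 2 ∣ J := by
    rw [hJ, hJ₀, hb]
    refine dvd_add (Dvd.intro _ rfl) ?_
    exact Dvd.dvd.mul_left (Dvd.intro _ rfl) _
  clear_value J
  have hib : i * b + b ≤ W * b := by
    calc i * b + b = (i + 1) * b := by ring
      _ ≤ W * b := Nat.mul_le_mul_right _ hi
  have hJ1 : 1 ≤ J := by omega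
  have hJ8 : k ≤ 8 * J := by omega
  have hJ4 : 4 * J ≤ k := by omega
  have hJbk : J + b ≤ k := by omega
  have hJ8r : x ≤ 8 * (J : ℝ) := by rw [hx]; exact_mod_cast hJ8
  have hJ4r : 4 * (J : ℝ) ≤ x := by rw [hx]; exact_mod_cast hJ4
  obtain ⟨u, hu⟩ : ∃ u, J + b + u = k := ⟨k - (J + b), by omega⟩
  have hbu : b + u = k - J := by omega
  have huk : k ≤ 2 * u := by omega
  -- squares
  have hsq : ∀ m : ℕ, (m : ℝ) ≤ 4 * x ^ δ → (m : ℝ) ^ 2 ≤ κ₀ * J := by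
    intro m hm
    have h1 : (m : ℝ) ^ 2 ≤ 16 * x ^ (2 * δ) := by
      have e : x ^ (2 * δ) = x ^ δ * x ^ δ := by rw [← Real.rpow_add hx0]; congr 1; ring
      rw [e]
      calc (m : ℝ) ^ 2 ≤ (4 * x ^ δ) ^ 2 := pow_le_pow_left₀ (Nat.cast_nonneg m) hm 2
        _ = 16 * (x ^ δ * x ^ δ) := by ring
    have h2 : 128 * x ^ (2 * δ) ≤ κ₀ * x := by
      rw [div_mul_eq_mul_div, div_le_iff₀ hκ₀] at x4
      linarith
    have h3 := mul_le_mul_of_nonneg_left hJ8r hκ₀.le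
    linarith
  have hμJ : (μ : ℝ) ^ 2 ≤ κ₀ * J := hsq μ (by linarith)
  -- the levels
  obtain ⟨t1, t2⟩ := Pool.Agent.H620.Inf.typ_num (J := J) hδ x1 (by linarith) hJ4r
  have hD1 : 1 ≤ x ^ (1 / 2 + δ) := Real.one_le_rpow (by linarith) (by linarith)
  obtain ⟨d1, d2⟩ := ceil_bd hD1
  set D := ⌈x ^ (1 / 2 + δ)⌉₊ with hD
  clear_value D
  set p := x ^ (-(1 / 2) - 2 * δ) with hp
  have hp0 : 0 < p := Real.rpow_pos_of_pos hx0 _
  clear_value p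
  have hDpos : 0 < D := by
    have : (0 : ℝ) < D := by linarith
    exact_mod_cast this
  obtain ⟨o₀, o₁, hoa, hob, ho1, hty, hout⟩ := typ_mid hJQ hDpos hp0 (by linarith)
  have ho1r : (J : ℝ) ≤ 2 * o₀ + D := by exact_mod_cast ho1
  have hJ2 : 2 * (J / 2) = J := by omega
  have ho2r : 2 * (((J / 2 : ℕ)) : ℝ) ≤ J + (D : ℝ) := by
    have : 2 * (((J / 2 : ℕ)) : ℝ) = J := by exact_mod_cast hJ2
    have hD0 : (0 : ℝ) ≤ D := Nat.cast_nonneg D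
    linarith
  have hDx : 500 * (D : ℝ) ≤ x := by linarith
  have hμo : μ ≤ o₀ := by
    have h1 : (μ : ℝ) ≤ o₀ := by linarith
    exact_mod_cast h1
  -- powers
  set y := x ^ (-δ) with hy
  have hy0 : 0 < y := Real.rpow_pos_of_pos hx0 _
  have hxi : x⁻¹ ≤ y := by
    rw [← Real.rpow_neg_one]
    exact Real.rpow_le_rpow_of_exponent_le (by linarith) (by linarith)
  clear_value y
  have h2k : (0 : ℝ) < 2 ^ k := by positivity
  -- `M`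
  have hMB : C₀ * (J : ℝ) ^ 2 / (μ : ℝ) ^ B ≤ C₀ * x⁻¹ := by
    have h1 : x ^ (3 : ℝ) ≤ (μ : ℝ) ^ B := by
      calc x ^ (3 : ℝ) ≤ x ^ (δ * B) := Real.rpow_le_rpow_of_exponent_le (by linarith) hB
        _ = (x ^ δ) ^ B := by rw [Real.rpow_mul hx0.le, Real.rpow_natCast]
        _ ≤ (μ : ℝ) ^ B := pow_le_pow_left₀ (by positivity) m1 B
    have h2 : x ^ (3 : ℝ) = x ^ 3 := by norm_cast
    rw [h2] at h1
    have h3 : (0 : ℝ) < x ^ 3 := by positivity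
    calc C₀ * (J : ℝ) ^ 2 / (μ : ℝ) ^ B ≤ C₀ * x ^ 2 / x ^ 3 := by
          gcongr
          have : (0 : ℝ) ≤ J := Nat.cast_nonneg J
          linarith
      _ = C₀ * x⁻¹ := by field_simp
  set z := x ^ (-(1 / 2) - 5 * δ) with hz
  have hz1 : x⁻¹ ≤ z := by
    rw [← Real.rpow_neg_one]
    exact Real.rpow_le_rpow_of_exponent_le (by linarith) (by linarith)
  have hz0 : 0 < z := Real.rpow_pos_of_pos hx0 _
  clear_value z
  -- the truncation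
  have hN : (N : ℝ) / 2 ^ u ≤ (x ^ 3)⁻¹ * Real.exp (-(x / 8)) := by
    have h1 : Real.exp (x / 4) ≤ 2 ^ u := by
      have e : (2 : ℝ) ^ u = Real.exp (u * Real.log 2) := by
        rw [mul_comm, Real.exp_mul, Real.exp_log (by norm_num), Real.rpow_natCast]
      rw [e]
      apply Real.exp_le_exp.2
      have h2 : x ≤ 2 * (u : ℝ) := by rw [hx]; exact_mod_cast huk
      have l2 := Real.log_two_gt_d9
      calc x / 4 ≤ u * (1 / 2) := by linarith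
        _ ≤ u * Real.log 2 := mul_le_mul_of_nonneg_left (by linarith) (Nat.cast_nonneg u)
    have h2 : x ^ (3 : ℝ) = x ^ 3 := by norm_cast
    rw [h2] at x9
    have h3 : (0 : ℝ) < x ^ 3 := by positivity
    rw [div_le_iff₀ (by positivity)]
    calc (N : ℝ) = (x ^ 3)⁻¹ * (N * x ^ 3) := by field_simp
      _ ≤ (x ^ 3)⁻¹ * Real.exp (x / 8) := by gcongr
      _ = (x ^ 3)⁻¹ * (Real.exp (-(x / 8)) * Real.exp (x / 4)) := by
          rw [← Real.exp_add]; congr 2; ring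
      _ ≤ (x ^ 3)⁻¹ * (Real.exp (-(x / 8)) * 2 ^ u) := by gcongr
      _ = _ := by ring
  have hN' : (N : ℝ) / 2 ^ u ≤ (x ^ 3)⁻¹ := by
    refine hN.trans ?_
    have : Real.exp (-(x / 8)) ≤ 1 := Real.exp_le_one_iff.2 (by linarith)
    calc (x ^ 3)⁻¹ * Real.exp (-(x / 8)) ≤ (x ^ 3)⁻¹ * 1 := by gcongr
      _ = _ := mul_one _
  have h2ku : (2 : ℝ) ^ k = 2 ^ (J + b) * 2 ^ u := by rw [← pow_add]; congr 1; omega
  have hdiff : (2 : ℝ) ^ (J + b) * N ≤ 2 ^ k * (x ^ 3)⁻¹ := by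
    rw [div_le_iff₀ (by positivity)] at hN'
    rw [h2ku]
    calc (2 : ℝ) ^ (J + b) * N ≤ 2 ^ (J + b) * ((x ^ 3)⁻¹ * 2 ^ u) := by gcongr
      _ = _ := by ring
  obtain ⟨P, V, hPV, hPco, hPd, hphase⟩ := hloc J b u hJQ hu
  have hwinP : ∑ j ∈ Ico J (J + b), In P k j ≤ TI (fun n : ℕ => Q (n : ℤ)) k / W + 2 ^ k * z := by
    have h1 : ∀ j ∈ Ico J (J + b), In P k j ≤ In (fun n : ℕ => Q (n : ℤ)) k j + 2 * (2 ^ k * (x ^ 3)⁻¹) := by
      intro j hj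
      rw [mem_Ico] at hj
      refine (In_approx P (fun n : ℕ => Q (n : ℤ)) (show j < k by omega)).trans ?_
      have := hPd.trans hdiff
      linarith
    refine (sum_le_sum h1).trans ?_
    rw [sum_add_distrib, sum_const, Nat.card_Ico, Nat.add_sub_cancel_left, nsmul_eq_mul]
    have h2 : (b : ℝ) * (2 * (2 ^ k * (x ^ 3)⁻¹)) ≤ 2 ^ k * z := by
      calc (b : ℝ) * (2 * (2 ^ k * (x ^ 3)⁻¹)) ≤ (x / 2) * (2 * (2 ^ k * (x ^ 3)⁻¹)) := by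
            gcongr
            linarith
        _ = 2 ^ k * (x⁻¹ * x⁻¹) := by field_simp
        _ ≤ 2 ^ k * (z * 1) := by
            gcongr
            exact inv_le_one_of_one_le₀ (by linarith)
        _ = 2 ^ k * z := by rw [mul_one]
    linarith
  have hwin2 : TI (fun n : ℕ => Q (n : ℤ)) k / W ≤ 2 ^ k * (64 * z) := by
    have hWr : (0 : ℝ) < W := by exact_mod_cast hW0
    rw [div_le_iff₀ hWr]
    refine hTI.trans ?_
    have h1 : x ^ (1 / 2 - 8 * δ) = x ^ (-(1 / 2) - 5 * δ) * (x * x ^ (-(3 * δ))) := by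
      have : x * x ^ (-(3 * δ)) = x ^ (1 - 3 * δ) := by
        rw [sub_eq_add_neg, Real.rpow_add hx0, Real.rpow_one]
      rw [this, ← Real.rpow_add hx0]; congr 1; ring
    have h2 : x * x ^ (-(3 * δ)) ≤ 64 * W := by
      have h3 : x ^ (-(3 * δ)) * x ^ (3 * δ) = 1 := by rw [← Real.rpow_add hx0]; simp
      have h4 : 0 < x ^ (-(3 * δ)) := Real.rpow_pos_of_pos hx0 _
      calc x * x ^ (-(3 * δ)) ≤ (W * (32 * b)) * x ^ (-(3 * δ)) := by gcongr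
        _ ≤ (W * (32 * (2 * x ^ (3 * δ)))) * x ^ (-(3 * δ)) := by gcongr
        _ = 64 * W * (x ^ (-(3 * δ)) * x ^ (3 * δ)) := by ring
        _ = 64 * W := by rw [h3, mul_one]
    rw [h1, ← hz]
    calc 2 ^ k * (z * (x * x ^ (-(3 * δ)))) ≤ 2 ^ k * (z * (64 * W)) := by gcongr
      _ = 2 ^ k * (64 * z) * W := by ring
  set M : ℝ := 2 ^ k * ((260 + C₀) * z) with hM
  have hMle : 4 * ∑ j ∈ Ico J (J + b), In P (J + b + u) j +
      2 ^ (J + b + u) * (C₀ * J ^ 2 / (μ : ℝ) ^ B) ≤ M := by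
    rw [hu]
    have h2 : 2 ^ k * (C₀ * (J : ℝ) ^ 2 / (μ : ℝ) ^ B) ≤ 2 ^ k * (C₀ * z) := by
      gcongr
      exact hMB.trans (by gcongr)
    rw [hM]
    linarith
  obtain ⟨Y, r, hr, hS1, hS2⟩ := hscale P V J b u μ hJ1 hμ1 hμJ hPV (hPco μ hq)
    o₀ o₁ (J / 2) hμo hoa hob p hp0 hty M hMle
  have hzp : z / p ≤ y := by
    rw [div_le_iff₀ hp0, hz, hy, hp, ← Real.rpow_add hx0]
    exact Real.rpow_le_rpow_of_exponent_le (by linarith) (by linarith)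
  have hzy : z ≤ y := by
    rw [hz, hy]
    exact Real.rpow_le_rpow_of_exponent_le (by linarith) (by linarith)
  have hyk : (k : ℝ) ^ (-δ) = y := hy.symm
  refine ⟨J, μ, J / 2, r, Y, hJ8, hJ4, m2, hμo.trans hoa, hr, kappa_num hJ8r hDx hx0 ho2r, ?_, ?_⟩
  · intro m hm r₀
    rw [hyk]
    have hm3' : (3 : ℝ) ^ m ≤ Real.exp (x / 8) := by
      have e : (3 : ℝ) ^ m = Real.exp (m * Real.log 3) := by
        rw [mul_comm, Real.exp_mul, Real.exp_log (by norm_num), Real.rpow_natCast]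
      rw [e]
      apply Real.exp_le_exp.2
      obtain ⟨l1, l2⟩ := log3_bd
      have h1 : (m : ℝ) ≤ x / 1000 := by linarith
      calc (m : ℝ) * Real.log 3 ≤ (x / 1000) * 2 := mul_le_mul h1 (by linarith) (by linarith) (by linarith)
        _ ≤ x / 8 := by linarith
    have hm3 : (3 : ℝ) ^ m ≤ 2 ^ (b + u) := by
      have h1 : (3 : ℝ) ^ m ≤ 4 ^ m := pow_le_pow_left₀ (by norm_num) (by norm_num) _
      have h2 : (4 : ℝ) ^ m = 2 ^ (2 * m) := by rw [pow_mul]; norm_num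
      rw [h2] at h1
      refine h1.trans (pow_le_pow_right₀ (by norm_num) ?_)
      have h3 : 2 * (m : ℝ) + J ≤ (k : ℝ) := by
        have : 2 * (m : ℝ) + J ≤ x := by linarith
        exact this
      have h4 : 2 * m + J ≤ k := by exact_mod_cast h3
      omega
    have h1 := hS1 m (hsq m hm) hm3 r₀ (k ^ 2) (Nat.one_le_pow _ _ (by omega))
    rw [hu] at h1
    -- from `P` to `Q`
    have hconv : ∑ n ∈ range (2 ^ k), ind ((3 : ℤ) ^ m ∣ (n : ℤ) - r₀ ∧ ¬ (Q (n : ℤ) ↔ Y (3 ^ (J / 2 - μ) * n / 2 ^ J))) ≤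
        ∑ n ∈ range (2 ^ k), ind ((3 : ℤ) ^ m ∣ (n : ℤ) - r₀ ∧ ¬ (P n ↔ Y (3 ^ (J / 2 - μ) * n / 2 ^ J))) +
          2 ^ k / 3 ^ m * y := by
      have g1 : ∀ n ∈ range (2 ^ k), ind ((3 : ℤ) ^ m ∣ (n : ℤ) - r₀ ∧ ¬ (Q (n : ℤ) ↔ Y (3 ^ (J / 2 - μ) * n / 2 ^ J))) ≤
          ind ((3 : ℤ) ^ m ∣ (n : ℤ) - r₀ ∧ ¬ (P n ↔ Y (3 ^ (J / 2 - μ) * n / 2 ^ J))) + ne' (P n) (Q (n : ℤ)) := by
        intro n _
        rw [ne'_eq_ind]
        refine le_trans (ind_mono ?_) (ind_or _ _)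
        rintro ⟨g2, g3⟩
        by_cases g4 : P n ↔ Q (n : ℤ)
        · left
          exact ⟨g2, by rw [g4]; exact g3⟩
        · exact Or.inr g4
      refine (sum_le_sum g1).trans ?_
      rw [sum_add_distrib]
      have g5 : (2 : ℝ) ^ (J + b) * N ≤ 2 ^ k / 3 ^ m * y := by
        rw [div_le_iff₀ (by positivity)] at hN
        rw [h2ku]
        calc (2 : ℝ) ^ (J + b) * N ≤ 2 ^ (J + b) * ((x ^ 3)⁻¹ * Real.exp (-(x / 8)) * 2 ^ u) := by gcongr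
          _ = 2 ^ (J + b) * 2 ^ u * (Real.exp (-(x / 8)) * (x ^ 3)⁻¹) := by ring
          _ ≤ 2 ^ (J + b) * 2 ^ u * ((1 / 3 ^ m) * y) := by
              gcongr
              · rw [Real.exp_neg, one_div]
                exact inv_anti₀ (by positivity) hm3'
              · refine le_trans ?_ hxi
                apply inv_anti₀ hx0
                calc x = x ^ 1 := (pow_one x).symm
                  _ ≤ x ^ 3 := pow_le_pow_right₀ (by linarith) (by norm_num)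
          _ = _ := by ring
      linarith
    refine hconv.trans ?_
    refine (add_le_add_left h1 _).trans ?_
    rw [← mul_add]
    apply mul_le_mul_of_nonneg_left _ (by positivity)
    have e1 : M / 2 ^ k = (260 + C₀) * z := by rw [hM]; field_simp
    rw [e1]
    have h2 : (1 + 4 / p) * ((260 + C₀) * z) ≤ 5 * (260 + C₀) * y := by
      have e2 : (1 + 4 / p) * ((260 + C₀) * z) = (260 + C₀) * (z + 4 * (z / p)) := by ring
      rw [e2]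
      have : (260 + C₀) * (z + 4 * (z / p)) ≤ (260 + C₀) * (y + 4 * y) := by gcongr
      linarith
    have h3 : (∑ L ∈ range (2 ^ J), ind (¬ (o₀ ≤ aw d J L ∧ aw d J L ≤ o₁))) / 2 ^ J ≤ 5 * y := by
      rw [div_le_iff₀ (by positivity)]
      have e3 : ∑ L ∈ range (2 ^ J), ind (¬ (o₀ ≤ aw d J L ∧ aw d J L ≤ o₁)) =
          ∑ v ∈ words J, ind (¬ (o₀ ≤ ones v ∧ ones v ≤ o₁)) :=
        sum_wd hd.odd J (fun v => ind (¬ (o₀ ≤ ones v ∧ ones v ≤ o₁)))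
      rw [e3]
      refine hout.trans ?_
      rw [mul_comm]
      apply mul_le_mul_of_nonneg_right _ (by positivity)
      linarith
    have h4 : (J : ℝ) / (4 * ((k ^ 2 : ℕ) : ℝ)) ≤ y := by
      push_cast
      rw [← hx]
      calc (J : ℝ) / (4 * x ^ 2) ≤ x / (4 * x ^ 2) := by
            gcongr
            have : (0 : ℝ) ≤ J := Nat.cast_nonneg J
            linarith
        _ = x⁻¹ / 4 := by field_simp
        _ ≤ y := by linarith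
    have h5 : ((k ^ 2 : ℕ) : ℝ) / 3 ^ μ ≤ y := by
      push_cast
      rw [← hx]
      have g1 : x ^ 3 ≤ 3 ^ μ := by
        have g2 : Real.exp (1 * x ^ δ) ≤ 3 ^ μ := by
          have e : (3 : ℝ) ^ μ = Real.exp (μ * Real.log 3) := by
            rw [mul_comm, Real.exp_mul, Real.exp_log (by norm_num), Real.rpow_natCast]
          rw [e]
          apply Real.exp_le_exp.2
          have h9 : (1 : ℝ) ≤ Real.log 3 := by linarith [log3_bd.1]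
          rw [one_mul]
          exact m1.trans (le_mul_of_one_le_right (Nat.cast_nonneg μ) h9)
        have g3 : x ^ (3 : ℝ) = x ^ 3 := by norm_cast
        rw [← g3]
        exact x6.trans g2
      calc x ^ 2 / 3 ^ μ ≤ x ^ 2 / x ^ 3 := by gcongr
        _ = x⁻¹ := by field_simp
        _ ≤ y := hxi
    have h6 : (2 : ℝ) / 2 ^ J ≤ 16 * y := by
      have g1 : (J : ℝ) ≤ 2 ^ J := by exact_mod_cast Nat.lt_two_pow_self.le
      calc (2 : ℝ) / 2 ^ J ≤ 2 / (x / 8) := by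
            apply div_le_div_of_nonneg_left (by norm_num) (by positivity)
            linarith
        _ = 16 * x⁻¹ := by field_simp; norm_num
        _ ≤ 16 * y := by linarith
    have h7 : C₀ * (J : ℝ) ^ 2 / (μ : ℝ) ^ B ≤ C₀ * y := hMB.trans (by gcongr)
    have h8 : 0 < C₀ * y := by positivity
    have e5 : (50 * C₀ + 3000) * y = 50 * (C₀ * y) + 3000 * y := by ring
    have e6 : 5 * (260 + C₀) * y = 1300 * y + 5 * (C₀ * y) := by ring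
    rw [e5]
    rw [e6] at h2
    linarith
  · rw [hyk, ← hbu, sum_split]
    have hconv : ∑ U ∈ range (2 ^ (b + u)), ∑ q ∈ range (3 ^ (J / 2 - μ)),
        ind (¬ (Q (3 ^ μ * ((3 ^ (J / 2 - μ) * U + q : ℕ) : ℤ) + r) ↔ Y (3 ^ (J / 2 - μ) * U + q))) ≤
        ∑ U ∈ range (2 ^ (b + u)), ∑ q ∈ range (3 ^ (J / 2 - μ)),
          ind (¬ (V U (J / 2) (3 ^ μ * (q : ℤ) + r) ↔ Y (3 ^ (J / 2 - μ) * U + q))) +
        3 ^ (J / 2 - μ) * (2 ^ b * N) := by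
      refine le_trans ?_ (add_le_add_right (hphase μ r (hμo.trans hoa) hr) _)
      rw [← sum_add_distrib]
      apply sum_le_sum
      intro U _
      rw [← sum_add_distrib]
      apply sum_le_sum
      intro q _
      have g1 := Pool.Agent.H620.Inf.ind_tri (Q (3 ^ μ * ((3 ^ (J / 2 - μ) * U + q : ℕ) : ℤ) + r))
        (V U (J / 2) (3 ^ μ * (q : ℤ) + r)) (Y (3 ^ (J / 2 - μ) * U + q))
      rw [Pool.Agent.H620.Inf.ind_comm (Q (3 ^ μ * ((3 ^ (J / 2 - μ) * U + q : ℕ) : ℤ) + r))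
        (V U (J / 2) (3 ^ μ * (q : ℤ) + r))] at g1
      linarith
    refine hconv.trans ?_
    have h2J : (0 : ℝ) < 2 ^ J := by positivity
    have e1 : M / (p * 2 ^ J) = 2 ^ (b + u) * ((260 + C₀) * (z / p)) := by
      have : (2 : ℝ) ^ k = 2 ^ J * 2 ^ (b + u) := by rw [← pow_add]; congr 1; omega
      rw [hM, this]
      field_simp
    rw [e1] at hS2
    have h1 : (260 + C₀) * (z / p) ≤ (260 + C₀) * y := by gcongr
    have h3 : (2 : ℝ) ^ b * N ≤ 2 ^ (b + u) * y := by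
      rw [div_le_iff₀ (by positivity)] at hN'
      rw [pow_add]
      calc (2 : ℝ) ^ b * N ≤ 2 ^ b * ((x ^ 3)⁻¹ * 2 ^ u) := by gcongr
        _ = 2 ^ b * 2 ^ u * (x ^ 3)⁻¹ := by ring
        _ ≤ 2 ^ b * 2 ^ u * y := by
            gcongr
            refine le_trans ?_ hxi
            apply inv_anti₀ hx0
            calc x = x ^ 1 := (pow_one x).symm
              _ ≤ x ^ 3 := pow_le_pow_right₀ (by linarith) (by norm_num)
    calc ∑ U ∈ range (2 ^ (b + u)), ∑ q ∈ range (3 ^ (J / 2 - μ)),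
          ind (¬ (V U (J / 2) (3 ^ μ * (q : ℤ) + r) ↔ Y (3 ^ (J / 2 - μ) * U + q))) +
        3 ^ (J / 2 - μ) * (2 ^ b * N)
        ≤ 3 ^ (J / 2 - μ) * (5 * (2 ^ (b + u) * ((260 + C₀) * y))) + 3 ^ (J / 2 - μ) * (2 ^ (b + u) * y) := by
          refine add_le_add (hS2.trans ?_) ?_
          · gcongr
          · gcongr
      _ = 3 ^ (J / 2 - μ) * 2 ^ (b + u) * ((1301 + 5 * C₀) * y) := by ring
      _ ≤ 3 ^ (J / 2 - μ) * 2 ^ (b + u) * ((50 * C₀ + 3000) * y) := by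
          apply mul_le_mul_of_nonneg_left _ (by positivity)
          exact mul_le_mul_of_nonneg_right (by linarith) hy0.le

end Pool.Agent.H620.Thr
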