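import Pool.Agent.H620.Inf2.Scale

/-! The structure of a set at one scale, at any typical level. -/

set_option autoImplicit false

namespace Pool.Agent.H620.Thr

open Finset
open Pool.Agent.TH930.EBQ (ones wd words cw T)
open Pool.Agent.H499R2.CO (Tz q)
open Pool.Agent.H620.Inf (ind ind_nonneg ind_le_one ind_true ind_false ind_mono ind_or ne'_eq_ind card_eq_ind nq nq_nonneg
  nq_le_one X ee ef maj ne' In minority' sum_split count_class dl dl_nonneg Dv Dv_le ind_tri)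
open Pool.Agent.H620.Inf2 (Sg aw cv pt chi VV VV_iff ee_iff lower mm mm_nonneg mm_ef exists_class bad good_div count_bad
  sum_dl_le)

variable {d : ℤ}

theorem nq_ef (V χ : ℕ → ℕ → ℕ → Prop) {μ o₀ o₁ : ℕ} (h0 : μ ≤ o₀) (o r : ℕ) :
    nq (ef V χ o₀ o₁) μ o r ≤ nq (ee V χ 0) μ o r + 2 * ∑ o ∈ Icc o₀ o₁, dl χ μ o := by
  set Δ := ∑ o ∈ Icc o₀ o₁, dl χ μ o with hΔ
  have hΔ0 : 0 ≤ Δ := sum_nonneg fun _ _ => dl_nonneg _ _ _
  by_cases ho : o₀ ≤ o ∧ o ≤ o₁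
  · obtain ⟨ho1, ho2⟩ := ho
    have h1 : Dv χ μ o₀ o ≤ 2 * Δ := by
      obtain ⟨n, rfl⟩ : ∃ n, o = o₀ + n := ⟨o - o₀, by omega⟩
      have h2 := Dv_le χ h0 n
      have h3 : ∑ o ∈ Icc o₀ (o₀ + n), dl χ μ o ≤ Δ :=
        sum_le_sum_of_subset_of_nonneg (Icc_subset_Icc le_rfl ho2) (fun _ _ _ => dl_nonneg _ _ _)
      have h4 := dl_nonneg χ μ (o₀ + n)
      linarith
    refine le_trans ?_ (add_le_add_right h1 _)
    unfold nq Dv
    rw [if_pos (by omega), if_pos (by omega), ← add_div, ← sum_add_distrib]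
    apply div_le_div_of_nonneg_right _ (by positivity)
    apply sum_le_sum
    intro q _
    refine (ind_mono (fun h => h.2.2)).trans ?_
    exact ind_tri _ _ _
  · have : nq (ef V χ o₀ o₁) μ o r = 0 := by
      unfold nq
      split_ifs
      · rw [sum_eq_zero, zero_div]
        intro q _
        exact ind_false (fun h => ho ⟨h.1, h.2.1⟩)
      · rfl
    rw [this]
    have := nq_nonneg (ee V χ 0) μ o r
    positivity

theorem sum_dl (V χ : ℕ → ℕ → ℕ → Prop) {μ J o₀ o₁ : ℕ} {p : ℝ}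
    (hp : ∀ o ∈ Icc o₀ o₁, p * 2 ^ J ≤ (((words J).filter (fun v => ones v = o)).card : ℝ)) :
    p * 2 ^ J * ∑ o ∈ Icc o₀ o₁, dl χ μ o ≤ mm d μ J (ee V χ 0) + mm d μ J (ee V χ 1) := by
  refine le_trans ?_ (sum_dl_le d V χ μ J)
  rw [mul_sum]
  have h3 : ∑ o ∈ Icc o₀ o₁, p * 2 ^ J * dl χ μ o ≤
      ∑ o ∈ Icc o₀ o₁, ∑ v ∈ (words J).filter (fun v => ones v = o), dl χ μ (ones v) := by
    apply sum_le_sum
    intro o ho
    have h4 : ∑ v ∈ (words J).filter (fun v => ones v = o), dl χ μ (ones v) =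
        ((words J).filter (fun v => ones v = o)).card * dl χ μ o := by
      rw [← nsmul_eq_mul, ← sum_const]
      apply sum_congr rfl
      intro v hv
      rw [(mem_filter.1 hv).2]
    rw [h4]
    exact mul_le_mul_of_nonneg_right (hp o ho) (dl_nonneg _ _ _)
  refine h3.trans ?_
  rw [← sum_biUnion]
  · apply sum_le_sum_of_subset_of_nonneg
    · intro v hv
      rw [mem_biUnion] at hv
      obtain ⟨o, _, hv⟩ := hv
      exact (mem_filter.1 hv).1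
    · intro _ _ _
      exact dl_nonneg _ _ _
  · intro a _ b _ hab
    rw [Function.onFun, disjoint_left]
    intro v hv1 hv2
    exact hab ((mem_filter.1 hv1).2.symm.trans (mem_filter.1 hv2).2)

theorem scale (hd : Sg d) (B : ℕ) : ∃ κ C : ℝ, 0 < κ ∧ 0 < C ∧ ∀ (P : ℕ → Prop) (V : ℕ → ℕ → ℤ → Prop),
    ∀ J b u μ : ℕ, 1 ≤ J → 1 ≤ μ → (μ : ℝ) ^ 2 ≤ κ * J →
    (∀ U, ∀ L < 2 ^ J, (P (2 ^ J * U + L) ↔ V U (aw d J L) (cv d J L))) →
    (∀ par, ∀ L < 2 ^ J, ∀ L' < 2 ^ J, pt d μ par J L = pt d μ par J L' →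
      ∃ G ⊆ range (2 ^ b), (2 : ℝ) ^ b ≤ 2 * G.card ∧ ∀ M ∈ G, ∀ U,
        (P (2 ^ J * (2 ^ b * U + M) + L) ↔ P (2 ^ J * (2 ^ b * U + M) + L'))) →
    ∀ o₀ o₁ o₂ : ℕ, μ ≤ o₀ → o₀ ≤ o₂ → o₂ ≤ o₁ → ∀ p : ℝ, 0 < p →
    (∀ o ∈ Icc o₀ o₁, p * 2 ^ J ≤ (((words J).filter (fun v => ones v = o)).card : ℝ)) →
    ∀ M : ℝ, 4 * ∑ j ∈ Ico J (J + b), In P (J + b + u) j +
      2 ^ (J + b + u) * (C * J ^ 2 / (μ : ℝ) ^ B) ≤ M →
    ∃ (Y : ℕ → Prop) (r : ℕ), r < 3 ^ μ ∧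
      (∀ m : ℕ, (m : ℝ) ^ 2 ≤ κ * J → (3 : ℝ) ^ m ≤ 2 ^ (b + u) → ∀ (r₀ : ℤ) (G : ℕ), 1 ≤ G →
        ∑ n ∈ range (2 ^ (J + b + u)), ind ((3 : ℤ) ^ m ∣ (n : ℤ) - r₀ ∧ ¬ (P n ↔ Y (3 ^ (o₂ - μ) * n / 2 ^ J))) ≤
          2 ^ (J + b + u) / 3 ^ m * ((1 + 4 / p) * (M / 2 ^ (J + b + u)) + C * J ^ 2 / (μ : ℝ) ^ B +
            2 * ((∑ L ∈ range (2 ^ J), ind (¬ (o₀ ≤ aw d J L ∧ aw d J L ≤ o₁))) / 2 ^ J + J / (4 * G) +
              2 * (G / 3 ^ μ) + 2 / 2 ^ J))) ∧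
      ∑ U ∈ range (2 ^ (b + u)), ∑ q ∈ range (3 ^ (o₂ - μ)),
        ind (¬ (V U o₂ (3 ^ μ * (q : ℤ) + r) ↔ Y (3 ^ (o₂ - μ) * U + q))) ≤
        3 ^ (o₂ - μ) * (5 * (M / (p * 2 ^ J))) := by
  obtain ⟨κ, C, hκ, hC, hup, hlow⟩ := lower hd B
  refine ⟨κ, C, hκ, hC, fun P V J b u μ hJ hμ hμJ hPV hco o₀ o₁ o₂ hμo ho ho2 p hp0 hp M hM => ?_⟩
  set w := b + u with hw
  set err := C * J ^ 2 / (μ : ℝ) ^ B with herr
  have hμr : (0 : ℝ) < μ := by exact_mod_cast hμ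
  have herr0 : 0 ≤ err := by positivity
  have h2k : (2 : ℝ) ^ (J + b + u) = 2 ^ J * 2 ^ w := by rw [hw, ← pow_add]; congr 1; ring
  have h2kn : (2 : ℕ) ^ (J + b + u) = 2 ^ J * 2 ^ w := by rw [hw, ← pow_add]; congr 1; ring
  -- the model counts
  have key2 : ∀ par : ℕ, ∑ U ∈ range (2 ^ w), mm d μ J (ee (VV V μ U) (chi d P μ J U) par) ≤ M := by
    intro par
    refine le_trans ?_ hM
    have h1 := minority' P J b u (pt d μ par J) (hco par)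
    refine le_trans ?_ (add_le_add_left h1 _)
    have h2 : ∀ U ∈ range (2 ^ w), mm d μ J (ee (VV V μ U) (chi d P μ J U) par) ≤
        ∑ L ∈ range (2 ^ J), ne' (P (2 ^ J * U + L))
          (maj ((range (2 ^ J)).filter (fun L' => pt d μ par J L' = pt d μ par J L)) (fun L' => P (2 ^ J * U + L'))) +
        2 ^ J * err := by
      intro U _
      refine (hlow J μ hJ hμ hμJ _).trans ?_
      gcongr with L hL
      rw [ne'_eq_ind]
      apply ind_mono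
      rintro ⟨_, h3⟩
      exact (ee_iff hPV μ U par (mem_range.1 hL)).1 h3
    refine (sum_le_sum h2).trans ?_
    rw [sum_add_distrib, sum_const, card_range, nsmul_eq_mul, h2k]
    push_cast
    apply le_of_eq
    rw [← hw]
    ring
  -- the function
  set Y : ℕ → Prop := fun n => X (chi d P μ J (n / 3 ^ (o₀ - μ))) 0 o₀ (n % 3 ^ (o₀ - μ)) with hY
  have hYv : ∀ U q : ℕ, q < 3 ^ (o₀ - μ) → (Y (3 ^ (o₀ - μ) * U + q) ↔ X (chi d P μ J U) 0 o₀ q) := by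
    intro U q hq
    simp only [hY]
    have e1 : (3 ^ (o₀ - μ) * U + q) / 3 ^ (o₀ - μ) = U := by
      rw [Nat.mul_add_div (by positivity), Nat.div_eq_of_lt hq, add_zero]
    have e2 : (3 ^ (o₀ - μ) * U + q) % 3 ^ (o₀ - μ) = q := by
      rw [Nat.mul_add_mod, Nat.mod_eq_of_lt hq]
    rw [e1, e2]
  obtain ⟨r, hr, hr2⟩ := exists_class d (range (2 ^ w)) (fun U => ee (VV V μ U) (chi d P μ J U) 0) hp0
    (hp o₂ (mem_Icc.2 ⟨ho, ho2⟩)) (key2 0)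
  have e32 : 3 ^ (o₂ - μ) = 3 ^ (o₀ - μ) * 3 ^ (o₂ - o₀) := by rw [← pow_add]; congr 1; omega
  have h3p : 0 < 3 ^ (o₂ - o₀) := by positivity
  refine ⟨fun n => Y (n / 3 ^ (o₂ - o₀)), r, hr, ?_, ?_⟩
  · intro m hm h3m r₀ G hG
    have eY : ∀ n : ℕ, 3 ^ (o₂ - μ) * n / 2 ^ J / 3 ^ (o₂ - o₀) = 3 ^ (o₀ - μ) * n / 2 ^ J := by
      intro n
      rw [Nat.div_div_eq_div_mul, e32, mul_comm (2 ^ J) (3 ^ (o₂ - o₀)),
        show 3 ^ (o₀ - μ) * 3 ^ (o₂ - o₀) * n = 3 ^ (o₂ - o₀) * (3 ^ (o₀ - μ) * n) by ring]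
      exact Nat.mul_div_mul_left _ _ h3p
    simp only [eY]
    set out := ∑ L ∈ range (2 ^ J), ind (¬ (o₀ ≤ aw d J L ∧ aw d J L ≤ o₁)) with hout
    have h3m0 : (0 : ℝ) < 3 ^ m := by positivity
    rw [h2kn, sum_split]
    have hpt : ∀ U ∈ range (2 ^ w), ∀ L ∈ range (2 ^ J),
        ind ((3 : ℤ) ^ m ∣ ((2 ^ J * U + L : ℕ) : ℤ) - r₀ ∧
          ¬ (P (2 ^ J * U + L) ↔ Y (3 ^ (o₀ - μ) * (2 ^ J * U + L) / 2 ^ J))) ≤
        ind ((3 : ℤ) ^ m ∣ ((2 ^ J * U + L : ℕ) : ℤ) - r₀ ∧ μ ≤ aw d J L ∧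
          ef (VV V μ U) (chi d P μ J U) o₀ o₁ (aw d J L) (cv d J L / 3 ^ μ) (cv d J L % 3 ^ μ)) +
        ind (bad d J μ o₀ o₁ G L) * ind ((3 : ℤ) ^ m ∣ ((2 ^ J * U + L : ℕ) : ℤ) - r₀) := by
      intro U _ L hL
      rw [mem_range] at hL
      by_cases hc : (3 : ℤ) ^ m ∣ ((2 ^ J * U + L : ℕ) : ℤ) - r₀
      · by_cases hb : bad d J μ o₀ o₁ G L
        · rw [ind_true hb, ind_true hc, one_mul]
          have h1 := ind_nonneg ((3 : ℤ) ^ m ∣ ((2 ^ J * U + L : ℕ) : ℤ) - r₀ ∧ μ ≤ aw d J L ∧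
            ef (VV V μ U) (chi d P μ J U) o₀ o₁ (aw d J L) (cv d J L / 3 ^ μ) (cv d J L % 3 ^ μ))
          have h2 := ind_le_one ((3 : ℤ) ^ m ∣ ((2 ^ J * U + L : ℕ) : ℤ) - r₀ ∧
            ¬ (P (2 ^ J * U + L) ↔ Y (3 ^ (o₀ - μ) * (2 ^ J * U + L) / 2 ^ J)))
          linarith
        · have hg := good_div hd hμo hb
          have hb' := hb
          unfold bad at hb'
          push Not at hb'
          obtain ⟨⟨g1, g2⟩, _, _⟩ := hb'
          rw [ind_false hb, zero_mul, add_zero]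
          apply ind_mono
          rintro ⟨h1, h2⟩
          refine ⟨h1, by omega, g1, g2, ?_⟩
          rw [VV_iff hPV μ U hL, hg]
          have e1 : 3 ^ (o₀ - μ) * (2 ^ J * U + L) / 2 ^ J = 3 ^ (o₀ - μ) * U + 3 ^ (o₀ - μ) * L / 2 ^ J := by
            have : 3 ^ (o₀ - μ) * (2 ^ J * U + L) = 2 ^ J * (3 ^ (o₀ - μ) * U) + 3 ^ (o₀ - μ) * L := by ring
            rw [this, Nat.mul_add_div (by positivity)]
          have e2 : 3 ^ (o₀ - μ) * L / 2 ^ J < 3 ^ (o₀ - μ) := by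
            rw [Nat.div_lt_iff_lt_mul (by positivity)]
            exact Nat.mul_lt_mul_of_pos_left hL (by positivity)
          rw [e1, hYv U _ e2] at h2
          exact h2
      · have h1 : ind ((3 : ℤ) ^ m ∣ ((2 ^ J * U + L : ℕ) : ℤ) - r₀ ∧
            ¬ (P (2 ^ J * U + L) ↔ Y (3 ^ (o₀ - μ) * (2 ^ J * U + L) / 2 ^ J))) = 0 :=
          ind_false fun h => hc h.1
        rw [h1]
        have h2 := ind_nonneg ((3 : ℤ) ^ m ∣ ((2 ^ J * U + L : ℕ) : ℤ) - r₀ ∧ μ ≤ aw d J L ∧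
            ef (VV V μ U) (chi d P μ J U) o₀ o₁ (aw d J L) (cv d J L / 3 ^ μ) (cv d J L % 3 ^ μ))
        have h3 := ind_nonneg (bad d J μ o₀ o₁ G L)
        have h4 := ind_nonneg ((3 : ℤ) ^ m ∣ ((2 ^ J * U + L : ℕ) : ℤ) - r₀)
        positivity
    refine (sum_le_sum fun U hU => sum_le_sum fun L hL => hpt U hU L hL).trans ?_
    simp_rw [sum_add_distrib]
    -- the first sum
    have hA : ∑ U ∈ range (2 ^ w), ∑ L ∈ range (2 ^ J), ind ((3 : ℤ) ^ m ∣ ((2 ^ J * U + L : ℕ) : ℤ) - r₀ ∧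
          μ ≤ aw d J L ∧ ef (VV V μ U) (chi d P μ J U) o₀ o₁ (aw d J L) (cv d J L / 3 ^ μ) (cv d J L % 3 ^ μ)) ≤
        2 ^ J / 3 ^ m * ((1 + 4 / p) * M / 2 ^ J + 2 ^ w * err) := by
      have h1 : ∀ U ∈ range (2 ^ w), ∑ L ∈ range (2 ^ J), ind ((3 : ℤ) ^ m ∣ ((2 ^ J * U + L : ℕ) : ℤ) - r₀ ∧
          μ ≤ aw d J L ∧ ef (VV V μ U) (chi d P μ J U) o₀ o₁ (aw d J L) (cv d J L / 3 ^ μ) (cv d J L % 3 ^ μ)) ≤
          2 ^ J / 3 ^ m * ((mm d μ J (ee (VV V μ U) (chi d P μ J U) 0) +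
            2 / p * (mm d μ J (ee (VV V μ U) (chi d P μ J U) 0) + mm d μ J (ee (VV V μ U) (chi d P μ J U) 1))) / 2 ^ J +
              err) := by
        intro U _
        refine (hup J μ hJ hμ hμJ U _ m hm r₀).trans ?_
        gcongr
        exact mm_ef d _ _ hμo hp0 hp
      refine (sum_le_sum h1).trans ?_
      rw [← mul_sum, sum_add_distrib, ← sum_div, sum_add_distrib, ← mul_sum, sum_add_distrib, sum_const, card_range,
        nsmul_eq_mul]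
      have h3 := key2 0
      have h4 := key2 1
      push_cast
      gcongr
      have h5 : 2 / p * (∑ U ∈ range (2 ^ w), mm d μ J (ee (VV V μ U) (chi d P μ J U) 0) +
          ∑ U ∈ range (2 ^ w), mm d μ J (ee (VV V μ U) (chi d P μ J U) 1)) ≤ 2 / p * (M + M) := by gcongr
      have h6 : (1 + 4 / p) * M = M + 2 / p * (M + M) := by ring
      rw [h6]
      linarith
    -- the second sum
    have hB : ∑ U ∈ range (2 ^ w), ∑ L ∈ range (2 ^ J), ind (bad d J μ o₀ o₁ G L) *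
        ind ((3 : ℤ) ^ m ∣ ((2 ^ J * U + L : ℕ) : ℤ) - r₀) ≤
        (out + 2 ^ J * (J / (4 * G) + 2 * (G / 3 ^ μ)) + 2) * (2 * (2 ^ w / 3 ^ m)) := by
      rw [sum_comm]
      have h1 : ∀ L ∈ range (2 ^ J), ∑ U ∈ range (2 ^ w), ind (bad d J μ o₀ o₁ G L) *
          ind ((3 : ℤ) ^ m ∣ ((2 ^ J * U + L : ℕ) : ℤ) - r₀) ≤
          ind (bad d J μ o₀ o₁ G L) * (2 * (2 ^ w / 3 ^ m)) := by
        intro L _
        rw [← mul_sum]
        apply mul_le_mul_of_nonneg_left _ (ind_nonneg _)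
        refine (count_class J m w L r₀).trans ?_
        have : (1 : ℝ) ≤ 2 ^ w / 3 ^ m := by rw [le_div_iff₀ h3m0, one_mul]; exact h3m
        linarith
      refine (sum_le_sum h1).trans ?_
      rw [← sum_mul]
      exact mul_le_mul_of_nonneg_right (count_bad hd J μ o₀ o₁ hG) (by positivity)
    refine (add_le_add hA hB).trans (le_of_eq ?_)
    rw [h2k]
    field_simp
    ring
  · have hYq : ∀ U q : ℕ, q < 3 ^ (o₂ - μ) → (Y ((3 ^ (o₂ - μ) * U + q) / 3 ^ (o₂ - o₀)) ↔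
        X (chi d P μ J U) 0 o₀ (q / 3 ^ (o₂ - o₀))) := by
      intro U q hq
      have e1 : (3 ^ (o₂ - μ) * U + q) / 3 ^ (o₂ - o₀) = 3 ^ (o₀ - μ) * U + q / 3 ^ (o₂ - o₀) := by
        rw [e32, show 3 ^ (o₀ - μ) * 3 ^ (o₂ - o₀) * U = 3 ^ (o₂ - o₀) * (3 ^ (o₀ - μ) * U) by ring,
          Nat.mul_add_div h3p]
      rw [e1]
      apply hYv
      rw [Nat.div_lt_iff_lt_mul h3p, ← e32]
      exact hq
    have h1 : ∀ U ∈ range (2 ^ w), ∑ q ∈ range (3 ^ (o₂ - μ)), ind (¬ (V U o₂ (3 ^ μ * (q : ℤ) + r) ↔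
        Y ((3 ^ (o₂ - μ) * U + q) / 3 ^ (o₂ - o₀)))) ≤
        3 ^ (o₂ - μ) * (nq (ee (VV V μ U) (chi d P μ J U) 0) μ o₂ r +
          2 * ((mm d μ J (ee (VV V μ U) (chi d P μ J U) 0) + mm d μ J (ee (VV V μ U) (chi d P μ J U) 1)) /
            (p * 2 ^ J))) := by
      intro U _
      have hpJ : 0 < p * 2 ^ J := by positivity
      have g1 := nq_ef (VV V μ U) (chi d P μ J U) (o₁ := o₁) hμo o₂ r
      have g2 := sum_dl (d := d) (VV V μ U) (chi d P μ J U) (μ := μ) (J := J) hp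
      have g3 : ∑ o ∈ Icc o₀ o₁, dl (chi d P μ J U) μ o ≤
          (mm d μ J (ee (VV V μ U) (chi d P μ J U) 0) + mm d μ J (ee (VV V μ U) (chi d P μ J U) 1)) /
            (p * 2 ^ J) := by
        rw [le_div_iff₀ hpJ, mul_comm]
        exact g2
      have g4 : ∑ q ∈ range (3 ^ (o₂ - μ)), ind (¬ (V U o₂ (3 ^ μ * (q : ℤ) + r) ↔
          Y ((3 ^ (o₂ - μ) * U + q) / 3 ^ (o₂ - o₀)))) =
          3 ^ (o₂ - μ) * nq (ef (VV V μ U) (chi d P μ J U) o₀ o₁) μ o₂ r := by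
        unfold nq
        rw [if_pos (by omega), mul_div_cancel₀]
        · apply sum_congr rfl
          intro q hq
          rw [mem_range] at hq
          have e5 : (V U o₂ (3 ^ μ * (q : ℤ) + r) ↔ Y ((3 ^ (o₂ - μ) * U + q) / 3 ^ (o₂ - o₀))) =
              (VV V μ U o₂ q r ↔ X (chi d P μ J U) 0 o₀ (q / 3 ^ (o₂ - o₀))) := by
            rw [propext (hYq U q hq)]
            rfl
          rw [e5]
          congr 1
          exact propext ⟨fun h => ⟨ho, ho2, h⟩, fun h => h.2.2⟩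
        · positivity
      rw [g4]
      apply mul_le_mul_of_nonneg_left _ (by positivity)
      linarith
    refine (sum_le_sum h1).trans ?_
    rw [← mul_sum, sum_add_distrib, ← mul_sum, ← sum_div, sum_add_distrib]
    apply mul_le_mul_of_nonneg_left _ (by positivity)
    have h3 := key2 0
    have h4 := key2 1
    have h5 : (∑ U ∈ range (2 ^ w), mm d μ J (ee (VV V μ U) (chi d P μ J U) 0) +
          ∑ U ∈ range (2 ^ w), mm d μ J (ee (VV V μ U) (chi d P μ J U) 1)) / (p * 2 ^ J) ≤ (M + M) / (p * 2 ^ J) := by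
      gcongr
    have h6 : (M + M) / (p * 2 ^ J) = 2 * (M / (p * 2 ^ J)) := by ring
    linarith

end Pool.Agent.H620.Thr
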