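import Pool.Agent.H620.Thr.Dens
import Pool.Graph.R_seed8.H499R2.LT.R1

/-! Times to reach a finite set, at most `κ log n + c`, for the critical `κ`, on both sides of `0`. -/

set_option autoImplicit false

namespace Pool.Agent.H620.Thr

open Finset Filter Topology
open Pool.Agent.H499R2.ND (Dn cnt Phi Td cnt_le)
open Pool.Agent.H499R2.LT (laws_side Dn_iff)
open Pool.Agent.H319R2.Lln (mu)
open Pool.Agent.H620.Inf2 (Sg Fam Large)

/-- reaching `F` in at most `a` steps from `s x` -/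
def RS (s : ℤ) (F : Finset ℤ) (a : ℝ) (x : ℤ) : Prop := ∃ j : ℕ, (j : ℝ) ≤ a ∧ (Td 1)^[j] (s * x) ∈ F

theorem T_sd {s : ℤ} (hs : s = 1 ∨ s = -1) (x : ℤ) : s * Pool.Agent.TH930.EBQ.T s x = Td 1 (s * x) := by
  unfold Pool.Agent.TH930.EBQ.T Td
  rcases hs with rfl | rfl <;> split_ifs <;> omega

theorem RS_floor (s : ℤ) (F : Finset ℤ) (a a' : ℝ) (x : ℤ) (h : ⌊a⌋ = ⌊a'⌋) : RS s F a x ↔ RS s F a' x := by
  unfold RS
  exact exists_congr fun j => by rw [nat_le_iff h]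

theorem RS_fam {s : ℤ} (hs : s = 1 ∨ s = -1) (F : Finset ℤ) :
    Fam s (-1 : ℝ) 0 ((∑ f ∈ F, f.natAbs) + 1) (RS s F) := by
  intro t x hx
  unfold RS
  rw [T_sd hs]
  have hnot : s * x ∉ F := by
    intro h
    have h1 : (s * x).natAbs ≤ ∑ f ∈ F, f.natAbs :=
      single_le_sum (f := fun f : ℤ => f.natAbs) (fun f _ => Nat.zero_le _) h
    have h2 : (s * x).natAbs = x.natAbs := by rcases hs with rfl | rfl <;> simp
    rw [h2] at h1
    have h3 : (((∑ f ∈ F, f.natAbs) + 1 : ℕ) : ℤ) ≤ x := hx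
    generalize (∑ f ∈ F, f.natAbs) = A at h1 h3
    omega
  constructor
  · rintro ⟨j, h1, h2⟩
    rcases j with _ | j
    · exact absurd h2 hnot
    · refine ⟨j, ?_, by rwa [Function.iterate_succ_apply] at h2⟩
      push_cast at h1
      split_ifs <;> linarith
  · rintro ⟨j, h1, h2⟩
    refine ⟨j + 1, ?_, by rwa [Function.iterate_succ_apply]⟩
    push_cast
    split_ifs at h1 <;> linarith

theorem dn_le {P : ℕ → Prop} {l : ℝ} (h : Dn P l) : l ≤ 1 := by
  refine le_of_tendsto h ?_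
  filter_upwards [eventually_gt_atTop 0] with N hN
  rw [div_le_one (by exact_mod_cast hN)]
  exact cnt_le P N

theorem mu_inv : (2 : ℝ) / Real.log (4 / 3) = 1 / mu := by
  unfold mu
  have := log43_pos
  field_simp

theorem dens_S {s : ℤ} (hs : s = 1 ∨ s = -1) (F : Finset ℤ) (hF : ∃ a ∈ F, 0 < s * a ∧ ¬ (3 : ℤ) ∣ a) (c : ℝ) :
    ∃ δ : ℝ, 0 < δ ∧ δ ≤ 1 ∧ Dn (fun n => RS s F (2 / Real.log (4 / 3) * Real.log n + c) (n : ℤ)) (δ / 2) := by
  obtain ⟨δ, _, _, _, _, hpos, hδ, hlaw, _⟩ := laws_side (d := 1) odd_one (by omega) hs F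
  refine ⟨δ, hpos hF, dn_le hδ, ?_⟩
  refine dens_of (F := fun x n => ∃ k : ℕ, (k : ℝ) ≤ Real.log n / mu + x * Pool.Agent.H499R2.ND.sg * Real.sqrt (Real.log n) ∧
      (Td 1)^[k] (s * n) ∈ F) (δ := δ) hlaw (c := c) (σ := Pool.Agent.H499R2.ND.sg) ?_ ?_
  · exact Pool.Agent.H499R2.LT.F3.f3_sg_pos
  · intro x n _
    unfold RS
    rw [mu_inv]
    constructor
    · rintro hx ⟨k, g1, g2⟩
      refine ⟨k, ?_, g2⟩
      have e : 1 / mu * Real.log n = Real.log n / mu := by ring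
      rw [e]
      linarith
    · rintro hx ⟨k, g1, g2⟩
      refine ⟨k, ?_, g2⟩
      have e : 1 / mu * Real.log n = Real.log n / mu := by ring
      rw [e] at g1
      linarith

/-- **Reaching a finite set in at most `2 / log (4/3) log n + c` steps**: large total influence -/
theorem large_S {s : ℤ} (hs : s = 1 ∨ s = -1) (F : Finset ℤ) (hF : ∃ a ∈ F, 0 < s * a ∧ ¬ (3 : ℤ) ∣ a) (c : ℝ) :
    Large (fun n : ℕ => RS s F (2 / Real.log (4 / 3) * Real.log n + c) (n : ℤ)) := by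
  obtain ⟨δ, h0, h1, h2⟩ := dens_S hs F hF c
  have hl := log43_pos
  refine threshold_large hs (RS_fam hs F) (by omega) (RS_floor s F) (by positivity) ?_ c
    (l := δ / 2) (by positivity) (by linarith) h2
  rw [log43_eq]
  field_simp
  norm_num

end Pool.Agent.H620.Thr
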